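import Mathlib

set_option autoImplicit false
set_option linter.unusedSectionVars false

/-!
# Generic functionals: either generically injective or a polynomial kernel vector
-/

namespace Pool.Agent.H447.Gen

open Module MvPolynomial

section

variable {ι : Type} [Fintype ι] {m l : Type} [Fintype m] [Fintype l]

/-- A matrix of polynomials is generically injective, or it has a kernel vector. -/
theorem dichotomy (B : m → l → MvPolynomial ι ℚ) :
    (∃ p : MvPolynomial ι ℚ, p ≠ 0 ∧ ∀ t : ι → ℚ, eval t p ≠ 0 → ∀ v : l → ℚ,
      (∀ j, ∑ k, eval t (B j k) * v k = 0) → v = 0) ∨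
    ∃ ξ : l → MvPolynomial ι ℚ, ξ ≠ 0 ∧ ∀ j, ∑ k, B j k * ξ k = 0 := by
  classical
  let R := MvPolynomial ι ℚ
  let F := FractionRing R
  have hinj : Function.Injective (algebraMap R F) := IsFractionRing.injective R F
  let f : (l → F) →ₗ[F] (m → F) :=
    { toFun := fun v j => ∑ k, algebraMap R F (B j k) * v k
      map_add' := fun a b => by
        funext j
        simp only [Pi.add_apply, mul_add, Finset.sum_add_distrib]
      map_smul' := fun r a => by
        funext j
        simp only [Pi.smul_apply, smul_eq_mul, RingHom.id_apply]
        rw [Finset.mul_sum]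
        refine Finset.sum_congr rfl fun k _ => ?_
        ring }
  by_cases hf : Function.Injective f
  · left
    obtain ⟨g, hg⟩ := f.exists_leftInverse_of_injective (LinearMap.ker_eq_bot.mpr hf)
    -- the entries of the left inverse
    let C : l × m → F := fun x => g (Pi.single x.2 1) x.1
    obtain ⟨d, hd⟩ := IsLocalization.exist_integer_multiples_of_finite (nonZeroDivisors R) C
    have hC : ∀ (w : m → F) (i : l), g w i = ∑ j, C (i, j) * w j := by
      intro w i
      conv_lhs => rw [LinearMap.pi_apply_eq_sum_univ g w]
      rw [Finset.sum_apply]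
      refine Finset.sum_congr rfl fun j _ => ?_
      rw [Pi.smul_apply, smul_eq_mul, mul_comm]
      congr 1
      have h0 : (fun j' => if j = j' then (1 : F) else 0) = Pi.single j 1 := by
        funext k
        simp only [Pi.single_apply, eq_comm]
      rw [h0]
    choose C' hC' using hd
    have hrel : ∀ i k, ∑ j, C' (i, j) * B j k = if i = k then (d : R) else 0 := by
      intro i k
      apply hinj
      have h1 : g (f (Pi.single k 1)) i = (Pi.single k 1 : l → F) i := by
        have := congrArg (fun h : (l → F) →ₗ[F] (l → F) => h (Pi.single k 1) i) hg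
        exact this
      rw [hC] at h1
      have h2 : ∀ j, f (Pi.single k 1) j = algebraMap R F (B j k) := by
        intro j
        show ∑ k', algebraMap R F (B j k') * (Pi.single k 1 : l → F) k' = _
        rw [Finset.sum_eq_single k]
        · simp
        · intro b _ hb
          rw [Pi.single_eq_of_ne hb, mul_zero]
        · intro h; exact absurd (Finset.mem_univ k) h
      simp only [h2] at h1
      rw [map_sum]
      have h3 : ∀ j, algebraMap R F (C' (i, j) * B j k) =
          algebraMap R F (d : R) * (C (i, j) * algebraMap R F (B j k)) := by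
        intro j
        rw [map_mul, hC' (i, j), Algebra.smul_def, mul_assoc]
      simp only [h3]
      rw [← Finset.mul_sum, h1, Pi.single_apply]
      by_cases hik : i = k
      · rw [if_pos hik, if_pos hik, mul_one]
      · rw [if_neg hik, if_neg hik, mul_zero, map_zero]
    refine ⟨(d : R), nonZeroDivisors.ne_zero d.2, fun t ht v hv => ?_⟩
    funext i
    have h1 : ∑ k, (∑ j, eval t (C' (i, j)) * eval t (B j k)) * v k = 0 := by
      simp only [Finset.sum_mul]
      rw [Finset.sum_comm]
      refine Finset.sum_eq_zero fun j _ => ?_
      have h2 := hv j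
      have h3 : ∑ k, eval t (C' (i, j)) * eval t (B j k) * v k =
          eval t (C' (i, j)) * ∑ k, eval t (B j k) * v k := by
        rw [Finset.mul_sum]
        exact Finset.sum_congr rfl fun k _ => mul_assoc _ _ _
      rw [h3, h2, mul_zero]
    have h2 : ∀ k, ∑ j, eval t (C' (i, j)) * eval t (B j k) = if i = k then eval t (d : R) else 0 := by
      intro k
      have h3 := congrArg (eval t) (hrel i k)
      rw [map_sum] at h3
      simp only [map_mul] at h3
      rw [h3]
      split_ifs
      · rfl
      · exact map_zero _
    simp only [h2, ite_mul, zero_mul] at h1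
    rw [Finset.sum_ite_eq] at h1
    simp only [Finset.mem_univ, if_true] at h1
    exact (mul_eq_zero.mp h1).resolve_left ht
  · right
    rw [← LinearMap.ker_eq_bot, LinearMap.ker_eq_bot'] at hf
    push Not at hf
    obtain ⟨v, hv, hv0⟩ := hf
    obtain ⟨d, hd⟩ := IsLocalization.exist_integer_multiples_of_finite (nonZeroDivisors R) v
    choose ξ hξ using hd
    have hd0 : algebraMap R F (d : R) ≠ 0 := by
      rw [Ne, map_eq_zero_iff _ hinj]
      exact nonZeroDivisors.ne_zero d.2
    refine ⟨ξ, ?_, ?_⟩
    · intro h0
      apply hv0
      funext k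
      have h1 := hξ k
      rw [h0, Pi.zero_apply, map_zero, Algebra.smul_def] at h1
      exact (mul_eq_zero.mp h1.symm).resolve_left hd0
    · intro j
      apply hinj
      rw [map_sum, map_zero]
      have h1 : ∑ k, algebraMap R F (B j k) * v k = 0 := congrFun hv j
      have h2 : ∀ k, algebraMap R F (B j k * ξ k) =
          algebraMap R F (d : R) * (algebraMap R F (B j k) * v k) := by
        intro k
        rw [map_mul, hξ k, Algebra.smul_def]
        ring
      simp only [h2]
      rw [← Finset.mul_sum, h1, mul_zero]

/-- A nonzero polynomial has a rational point where it does not vanish. -/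
theorem exists_eval_ne (p : MvPolynomial ι ℚ) (hp : p ≠ 0) : ∃ t : ι → ℚ, eval t p ≠ 0 := by
  by_contra h
  push Not at h
  apply hp
  apply MvPolynomial.funext
  intro t
  rw [h t, map_zero]

end

end Pool.Agent.H447.Gen
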