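import Mathlib
import Pool.Agent.H447.Gen.Poly

set_option autoImplicit false
set_option linter.unusedSectionVars false

/-!
# Spaces of homomorphisms and generic functionals
-/

namespace Pool.Agent.H447.Gen

open Module MvPolynomial

variable {A : Type} [Ring A] [Algebra ℚ A]
  {Z : Type} [AddCommGroup Z] [Module ℚ Z] [Module A Z] [IsScalarTower ℚ A Z]
  [FiniteDimensional ℚ Z]
  {M : Type} [AddCommGroup M] [Module ℚ M] [Module A M] [IsScalarTower ℚ A M]
  [FiniteDimensional ℚ M]

instance finiteHom : Module.Finite ℚ (Z →ₗ[A] M) := by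
  let f : (Z →ₗ[A] M) →ₗ[ℚ] (Z →ₗ[ℚ] M) :=
    { toFun := fun x => x.restrictScalars ℚ
      map_add' := fun a b => rfl
      map_smul' := fun r a => rfl }
  refine Module.Finite.of_injective f ?_
  intro a b h
  apply LinearMap.ext
  intro z
  exact LinearMap.congr_fun h z

/-- The maps which vanish on a submodule. -/
def van (Y : Submodule A Z) : Submodule ℚ (Z →ₗ[A] M) where
  carrier := {x | ∀ q ∈ Y, x q = 0}
  add_mem' := fun {a b} ha hb q hq => by rw [LinearMap.add_apply, ha q hq, hb q hq, add_zero]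
  zero_mem' := fun q _ => rfl
  smul_mem' := fun r a ha q hq => by rw [LinearMap.smul_apply, ha q hq, smul_zero]

theorem mem_van (Y : Submodule A Z) (x : Z →ₗ[A] M) : x ∈ van Y ↔ ∀ q ∈ Y, x q = 0 := Iff.rfl

theorem van_anti {Y Y' : Submodule A Z} (h : Y ≤ Y') :
    (van Y' : Submodule ℚ (Z →ₗ[A] M)) ≤ van Y := fun _ hx q hq => hx q (h hq)

section fn

variable (M)

/-- The coordinates with respect to a basis of `M`. -/
noncomputable def cf (i : Fin (finrank ℚ M)) : M →ₗ[ℚ] ℚ := (finBasis ℚ M).coord i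

/-- The functional with given coordinates. -/
noncomputable def fn (t : Fin (finrank ℚ M) → ℚ) : M →ₗ[ℚ] ℚ := ∑ i, t i • cf M i

variable {M}

theorem fn_apply (t : Fin (finrank ℚ M) → ℚ) (m : M) : fn M t m = ∑ i, t i * cf M i m := by
  simp only [fn, LinearMap.sum_apply, LinearMap.smul_apply, smul_eq_mul]

theorem exists_fn (φ : M →ₗ[ℚ] ℚ) : ∃ t, φ = fn M t := by
  refine ⟨fun i => φ (finBasis ℚ M i), ?_⟩
  apply (finBasis ℚ M).ext
  intro j
  rw [fn_apply, Finset.sum_eq_single j]
  · rw [cf, Basis.coord_apply, Basis.repr_self, Finsupp.single_eq_same, mul_one]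
  · intro b _ hb
    rw [cf, Basis.coord_apply, Basis.repr_self, Finsupp.single_eq_of_ne hb, mul_zero]
  · intro h; exact absurd (Finset.mem_univ j) h

theorem ext_cf {m : M} (h : ∀ i, cf M i m = 0) : m = 0 := by
  apply (finBasis ℚ M).repr.injective
  rw [map_zero]
  apply Finsupp.ext
  intro i
  exact h i

end fn

variable (e : A)

/-- A generic functional `φ` has the property that `x ∘ e` is killed by `φ` for no nonzero
element `x` of `Λ`. -/
def GenInj (Λ : Submodule ℚ (Z →ₗ[A] M)) : Prop :=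
  ∃ p : MvPolynomial (Fin (finrank ℚ M)) ℚ, p ≠ 0 ∧ ∀ t, eval t p ≠ 0 →
    ∀ x ∈ Λ, (∀ q : Z, fn M t (x (e • q)) = 0) → x = 0

/-- The polynomial whose values are the values of the functionals. -/
noncomputable def pol (x : Z →ₗ[A] M) (q : Z) : MvPolynomial (Fin (finrank ℚ M)) ℚ :=
  ∑ i, X i * C (cf M i (x (e • q)))

theorem eval_pol (x : Z →ₗ[A] M) (q : Z) (t : Fin (finrank ℚ M) → ℚ) :
    eval t (pol e x q) = fn M t (x (e • q)) := by
  rw [fn_apply, pol, map_sum]
  refine Finset.sum_congr rfl fun i _ => ?_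
  rw [map_mul, eval_X, eval_C]

theorem pderiv_pol (x : Z →ₗ[A] M) (q : Z) (i : Fin (finrank ℚ M)) :
    pderiv i (pol e x q) = C (cf M i (x (e • q))) := by
  classical
  rw [pol, map_sum, Finset.sum_eq_single i]
  · rw [Derivation.leibniz, pderiv_C, smul_zero, zero_add, pderiv_X_self, smul_eq_mul, mul_one]
  · intro b _ hb
    rw [Derivation.leibniz, pderiv_C, smul_zero, zero_add, pderiv_X_of_ne hb, smul_zero]
  · intro h; exact absurd (Finset.mem_univ i) h

/-- A polynomial family of kernel vectors. -/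
structure KerData (Λ : Submodule ℚ (Z →ₗ[A] M)) where
  l : ℕ
  x : Fin l → (Z →ₗ[A] M)
  hx : ∀ k, x k ∈ Λ
  hli : LinearIndependent ℚ x
  ξ : Fin l → MvPolynomial (Fin (finrank ℚ M)) ℚ
  hξ : ξ ≠ 0
  hrel : ∀ q, ∑ k, pol e (x k) q * ξ k = 0

theorem genInj_or (Λ : Submodule ℚ (Z →ₗ[A] M)) : GenInj e Λ ∨ Nonempty (KerData e Λ) := by
  classical
  let b := finBasis ℚ Λ
  let x : Fin (finrank ℚ Λ) → (Z →ₗ[A] M) := fun k => (b k : Z →ₗ[A] M)
  have hli : LinearIndependent ℚ x := b.linearIndependent.map' Λ.subtype (Submodule.ker_subtype Λ)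
  have hadd : ∀ (x : Z →ₗ[A] M) (q q' : Z), pol e x (q + q') = pol e x q + pol e x q' := by
    intro x q q'
    unfold pol
    rw [← Finset.sum_add_distrib]
    refine Finset.sum_congr rfl fun i _ => ?_
    rw [smul_add, map_add, map_add, C_add, mul_add]
  have hsmul : ∀ (x : Z →ₗ[A] M) (r : ℚ) (q : Z), pol e x (r • q) = C r * pol e x q := by
    intro x r q
    unfold pol
    rw [Finset.mul_sum]
    refine Finset.sum_congr rfl fun i _ => ?_
    have h1 : e • r • q = r • e • q := smul_comm _ _ _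
    have h2 : x (r • e • q) = r • x (e • q) := by
      exact x.map_smul_of_tower r (e • q)
    rw [h1, h2, map_smul, smul_eq_mul, C_mul]
    ring
  rcases dichotomy (fun (j : Fin (finrank ℚ Z)) (k : Fin (finrank ℚ Λ)) =>
    pol e (x k) (finBasis ℚ Z j)) with ⟨p, hp, h⟩ | ⟨ξ, hξ, h⟩
  · left
    refine ⟨p, hp, fun t ht y hy hyq => ?_⟩
    have h1 := h t ht (fun k => b.repr ⟨y, hy⟩ k) (fun j => by
      have h2 : y = ∑ k, b.repr ⟨y, hy⟩ k • x k := by
        have h3 := congrArg Subtype.val (b.sum_repr ⟨y, hy⟩)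
        rw [Submodule.coe_sum] at h3
        exact h3.symm
      have h4 := hyq (finBasis ℚ Z j)
      rw [h2, LinearMap.sum_apply, map_sum] at h4
      rw [← h4]
      refine Finset.sum_congr rfl fun k _ => ?_
      rw [eval_pol, LinearMap.smul_apply, (fn M t).map_smul, smul_eq_mul, mul_comm])
    have h2 : (⟨y, hy⟩ : Λ) = 0 := by
      apply b.repr.injective
      rw [map_zero]
      apply Finsupp.ext
      intro k
      exact congrFun h1 k
    exact congrArg Subtype.val h2
  · right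
    refine ⟨⟨finrank ℚ Λ, x, fun k => (b k).2, hli, ξ, hξ, fun q => ?_⟩⟩
    have hq : q = ∑ j, (finBasis ℚ Z).repr q j • finBasis ℚ Z j := ((finBasis ℚ Z).sum_repr q).symm
    have hpol : ∀ y : Z →ₗ[A] M, pol e y q =
        ∑ j, C ((finBasis ℚ Z).repr q j) * pol e y (finBasis ℚ Z j) := by
      intro y
      conv_lhs => rw [hq]
      have hzero : pol e y (0 : Z) = 0 := by
        have := hsmul y 0 0
        rwa [zero_smul, C_0, zero_mul] at this
      have : ∀ (s : Finset (Fin (finrank ℚ Z))) (f : Fin (finrank ℚ Z) → ℚ),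
          pol e y (∑ j ∈ s, f j • finBasis ℚ Z j) =
            ∑ j ∈ s, C (f j) * pol e y (finBasis ℚ Z j) := by
        intro s f
        induction s using Finset.induction_on with
        | empty => rw [Finset.sum_empty, Finset.sum_empty, hzero]
        | insert a s ha ih => rw [Finset.sum_insert ha, Finset.sum_insert ha, hadd, hsmul, ih]
      exact this _ _
    simp only [hpol, Finset.sum_mul]
    rw [Finset.sum_comm]
    refine Finset.sum_eq_zero fun j _ => ?_
    have h2 := h j
    have h3 : ∑ k, C ((finBasis ℚ Z).repr q j) * pol e (x k) (finBasis ℚ Z j) * ξ k =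
        C ((finBasis ℚ Z).repr q j) * ∑ k, pol e (x k) (finBasis ℚ Z j) * ξ k := by
      rw [Finset.mul_sum]
      exact Finset.sum_congr rfl fun k _ => mul_assoc _ _ _
    rw [h3, h2, mul_zero]

namespace KerData

variable {e} {Λ : Submodule ℚ (Z →ₗ[A] M)} (D : KerData e Λ)

/-- The kernel vector at a point. -/
noncomputable def at' (t : Fin (finrank ℚ M) → ℚ) : Z →ₗ[A] M := ∑ k, eval t (D.ξ k) • D.x k

/-- The derivatives of the kernel vector at a point. -/
noncomputable def der (t : Fin (finrank ℚ M) → ℚ) (i : Fin (finrank ℚ M)) : Z →ₗ[A] M :=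
  ∑ k, eval t (pderiv i (D.ξ k)) • D.x k

theorem at_mem (t : Fin (finrank ℚ M) → ℚ) : D.at' t ∈ Λ :=
  Submodule.sum_mem _ fun k _ => Submodule.smul_mem _ _ (D.hx k)

theorem der_mem (t : Fin (finrank ℚ M) → ℚ) (i : Fin (finrank ℚ M)) : D.der t i ∈ Λ :=
  Submodule.sum_mem _ fun k _ => Submodule.smul_mem _ _ (D.hx k)

theorem at_apply (t : Fin (finrank ℚ M) → ℚ) (q : Z) :
    D.at' t q = ∑ k, eval t (D.ξ k) • D.x k q := by
  rw [at', LinearMap.sum_apply]
  rfl

theorem der_apply (t : Fin (finrank ℚ M) → ℚ) (i : Fin (finrank ℚ M)) (q : Z) :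
    D.der t i q = ∑ k, eval t (pderiv i (D.ξ k)) • D.x k q := by
  rw [der, LinearMap.sum_apply]
  rfl

theorem at_rel (t : Fin (finrank ℚ M) → ℚ) (q : Z) : fn M t (D.at' t (e • q)) = 0 := by
  have h := congrArg (eval t) (D.hrel q)
  rw [map_sum, map_zero] at h
  rw [at_apply, map_sum, ← h]
  refine Finset.sum_congr rfl fun k _ => ?_
  rw [(fn M t).map_smul, smul_eq_mul, map_mul, eval_pol, mul_comm]

theorem der_rel (t : Fin (finrank ℚ M) → ℚ) (i : Fin (finrank ℚ M)) (q : Z) :
    fn M t (D.der t i (e • q)) + cf M i (D.at' t (e • q)) = 0 := by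
  have h := congrArg (fun p => eval t (pderiv i p)) (D.hrel q)
  simp only [map_sum, map_zero, Derivation.leibniz, pderiv_pol, smul_eq_mul, map_add, map_mul,
    eval_pol, eval_C] at h
  rw [at_apply, der_apply, map_sum, map_sum, ← Finset.sum_add_distrib, ← h]
  refine Finset.sum_congr rfl fun k _ => ?_
  rw [(fn M t).map_smul, (cf M i).map_smul, smul_eq_mul, smul_eq_mul]
  ring

/-- a nonvanishing polynomial -/
theorem exists_nonzero : ∃ p : MvPolynomial (Fin (finrank ℚ M)) ℚ, p ≠ 0 ∧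
    ∀ t, eval t p ≠ 0 → D.at' t ≠ 0 := by
  obtain ⟨k, hk⟩ := Function.ne_iff.mp D.hξ
  refine ⟨D.ξ k, hk, fun t ht h0 => ht ?_⟩
  exact Fintype.linearIndependent_iff.mp D.hli (fun k => eval t (D.ξ k)) h0 k

end KerData

end Pool.Agent.H447.Gen
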