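import Mathlib
import Pool.Agent.H447.Gen.Kernel

set_option autoImplicit false
set_option linter.unusedSectionVars false

/-!
# Weights of submodules and the tangent inequality
-/

namespace Pool.Agent.H447.Gen

open Module MvPolynomial

variable {A : Type} [Ring A] [Algebra ℚ A]
  {Z : Type} [AddCommGroup Z] [Module ℚ Z] [Module A Z] [IsScalarTower ℚ A Z]
  [FiniteDimensional ℚ Z]
  {M : Type} [AddCommGroup M] [Module ℚ M] [Module A M] [IsScalarTower ℚ A M]
  [FiniteDimensional ℚ M]

section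

variable (e : A)

/-- The vectors of `Y` fixed by `e`. -/
def ePart (Y : Submodule A Z) : Submodule ℚ Z where
  carrier := {y | y ∈ Y ∧ e • y = y}
  add_mem' := fun {a b} ha hb => ⟨Y.add_mem ha.1 hb.1, by rw [smul_add, ha.2, hb.2]⟩
  zero_mem' := ⟨Y.zero_mem, smul_zero e⟩
  smul_mem' := fun r a ha => ⟨by
    have h := Y.smul_mem (algebraMap ℚ A r) ha.1
    rwa [algebraMap_smul] at h, by rw [smul_comm, ha.2]⟩

/-- The weight of a submodule. -/
noncomputable def wt (Y : Submodule A Z) : ℕ := finrank ℚ (ePart e Y)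

theorem wt_bot : wt e (⊥ : Submodule A Z) = 0 := by
  unfold wt
  have h : ePart e (⊥ : Submodule A Z) = ⊥ := by
    rw [eq_bot_iff]
    intro y hy
    exact (Submodule.mem_bot ℚ).mpr ((Submodule.mem_bot A).mp hy.1)
  rw [h, finrank_bot]

theorem wt_mono {Y Y' : Submodule A Z} (h : Y ≤ Y') : wt e Y ≤ wt e Y' :=
  Submodule.finrank_mono fun _ hy => ⟨h hy.1, hy.2⟩

theorem wt_sup {Y Y' : Submodule A Z} (h : Disjoint Y Y') :
    wt e (Y ⊔ Y') = wt e Y + wt e Y' := by
  have h1 : ePart e (Y ⊔ Y') = ePart e Y ⊔ ePart e Y' := by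
    apply le_antisymm
    · rintro z ⟨hz, hez⟩
      obtain ⟨y, hy, y', hy', rfl⟩ := Submodule.mem_sup.mp hz
      rw [smul_add] at hez
      have h2 : e • y - y = y' - e • y' := by
        rw [sub_eq_sub_iff_add_eq_add, hez, add_comm]
      have h3 : e • y - y = 0 := by
        apply Submodule.disjoint_def.mp h
        · exact Y.sub_mem (Y.smul_mem e hy) hy
        · rw [h2]
          exact Y'.sub_mem hy' (Y'.smul_mem e hy')
      have h4 : y' - e • y' = 0 := by rw [← h2, h3]
      exact Submodule.add_mem_sup ⟨hy, sub_eq_zero.mp h3⟩ ⟨hy', (sub_eq_zero.mp h4).symm⟩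
    · refine sup_le ?_ ?_
      · exact fun y hy => ⟨Submodule.mem_sup_left hy.1, hy.2⟩
      · exact fun y hy => ⟨Submodule.mem_sup_right hy.1, hy.2⟩
  have h2 : ePart e Y ⊓ ePart e Y' = ⊥ := by
    rw [eq_bot_iff]
    rintro y ⟨hy, hy'⟩
    exact (Submodule.mem_bot ℚ).mpr (Submodule.disjoint_def.mp h y hy.1 hy'.1)
  have h3 := Submodule.finrank_sup_add_finrank_inf_eq (ePart e Y) (ePart e Y')
  rw [h2, finrank_bot, add_zero] at h3
  unfold wt
  rw [h1, h3]

theorem wt_le_of_inj {Y Y' : Submodule A Z} (f : Y →ₗ[A] Y') (hf : Function.Injective f) :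
    wt e Y ≤ wt e Y' := by
  let g : ePart e Y →ₗ[ℚ] ePart e Y' :=
    { toFun := fun y => ⟨(f ⟨y.1, y.2.1⟩ : Z), (f ⟨y.1, y.2.1⟩).2, by
        have h1 : f (e • (⟨y.1, y.2.1⟩ : Y)) = f ⟨y.1, y.2.1⟩ := by
          congr 1
          exact Subtype.ext y.2.2
        rw [map_smul] at h1
        exact congrArg Subtype.val h1⟩
      map_add' := fun a b => by
        apply Subtype.ext
        have h1 := f.map_add ⟨a.1, a.2.1⟩ ⟨b.1, b.2.1⟩
        exact congrArg (fun z : Y' => (z : Z)) h1
      map_smul' := fun r a => by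
        apply Subtype.ext
        have h1 := f.map_smul_of_tower r ⟨a.1, a.2.1⟩
        exact congrArg (fun z : Y' => (z : Z)) h1 }
  refine LinearMap.finrank_le_finrank_of_injective (f := g) ?_
  intro a b hab
  have h1 : (f ⟨a.1, a.2.1⟩ : Z) = (f ⟨b.1, b.2.1⟩ : Z) := congrArg (fun z => (z.1 : Z)) hab
  have h2 := hf (Subtype.ext h1)
  exact Subtype.ext (congrArg (fun z : Y => (z : Z)) h2)

theorem wt_congr {Y Y' : Submodule A Z} (f : Y ≃ₗ[A] Y') : wt e Y = wt e Y' :=
  le_antisymm (wt_le_of_inj e f.toLinearMap f.injective)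
    (wt_le_of_inj e f.symm.toLinearMap f.symm.injective)

/-- The map `q ↦ x (e q)`. -/
def xe (x : Z →ₗ[A] M) : Z →ₗ[ℚ] M where
  toFun q := x (e • q)
  map_add' a b := by rw [smul_add, map_add]
  map_smul' r a := by
    rw [smul_comm]
    exact x.map_smul_of_tower r (e • a)

variable (he : e * e = e)

include he in
theorem finrank_xe (x : Z →ₗ[A] M) :
    finrank ℚ (LinearMap.range (xe e x)) + wt e (LinearMap.ker x) = wt e (⊤ : Submodule A Z) := by
  let f : ePart e (⊤ : Submodule A Z) →ₗ[ℚ] M :=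
    (x.restrictScalars ℚ).domRestrict (ePart e (⊤ : Submodule A Z))
  have h1 := LinearMap.finrank_range_add_finrank_ker f
  have h2 : LinearMap.range f = LinearMap.range (xe e x) := by
    ext m
    constructor
    · rintro ⟨y, rfl⟩
      refine ⟨y.1, ?_⟩
      show x (e • y.1) = x y.1
      rw [y.2.2]
    · rintro ⟨q, rfl⟩
      refine ⟨⟨e • q, trivial, by rw [smul_smul, he]⟩, rfl⟩
  have h3 : finrank ℚ (LinearMap.ker f) = wt e (LinearMap.ker x) := by
    let g : LinearMap.ker f ≃ₗ[ℚ] ePart e (LinearMap.ker x) :=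
      { toFun := fun y => ⟨y.1.1, y.2, y.1.2.2⟩
        invFun := fun y => ⟨⟨y.1, trivial, y.2.2⟩, y.2.1⟩
        left_inv := fun y => rfl
        right_inv := fun y => rfl
        map_add' := fun a b => rfl
        map_smul' := fun r a => rfl }
    exact g.finrank_eq
  rw [h2, h3] at h1
  exact h1

variable {e} {Λ : Submodule ℚ (Z →ₗ[A] M)}

include he in
/-- The tangent inequality. -/
theorem tangent (D : KerData e Λ) (t : Fin (finrank ℚ M) → ℚ) (hx : D.at' t ≠ 0)
    (T : Submodule ℚ (Z →ₗ[A] M)) (hT : D.at' t ∈ T) (hT' : ∀ i, D.der t i ∈ T) :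
    wt e (⊤ : Submodule A Z) + 1 ≤ finrank ℚ T + wt e (LinearMap.ker (D.at' t)) := by
  let Ψ : T →ₗ[ℚ] Dual ℚ Z :=
    { toFun := fun η => (fn M t) ∘ₗ (xe e η.1)
      map_add' := fun a b => by
        apply LinearMap.ext
        intro q
        show fn M t ((a.1 + b.1) (e • q)) = fn M t (a.1 (e • q)) + fn M t (b.1 (e • q))
        rw [LinearMap.add_apply, map_add]
      map_smul' := fun r a => by
        apply LinearMap.ext
        intro q
        show fn M t ((r • a.1) (e • q)) = r • fn M t (a.1 (e • q))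
        rw [LinearMap.smul_apply, (fn M t).map_smul] }
  have h1 := LinearMap.finrank_range_add_finrank_ker Ψ
  have h2 : 0 < finrank ℚ (LinearMap.ker Ψ) := by
    have hmem : (⟨D.at' t, hT⟩ : T) ∈ LinearMap.ker Ψ := by
      apply LinearMap.ext
      intro q
      exact D.at_rel t q
    have : Nontrivial (LinearMap.ker Ψ) :=
      ⟨⟨⟨⟨D.at' t, hT⟩, hmem⟩, 0, fun h => hx (congrArg (fun z => z.1.1) h)⟩⟩
    exact Module.finrank_pos (R := ℚ) (M := LinearMap.ker Ψ)
  have h3 : LinearMap.range (xe e (D.at' t)).dualMap ≤ LinearMap.range Ψ := by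
    rintro _ ⟨φ, rfl⟩
    obtain ⟨s, rfl⟩ := exists_fn φ
    refine ⟨-∑ i, s i • ⟨D.der t i, hT' i⟩, ?_⟩
    apply LinearMap.ext
    intro q
    show fn M t ((-∑ i, s i • (⟨D.der t i, hT' i⟩ : T) : T).1 (e • q)) =
      fn M s (D.at' t (e • q))
    have h4 : ((-∑ i, s i • (⟨D.der t i, hT' i⟩ : T) : T) : Z →ₗ[A] M) =
        -∑ i, s i • D.der t i := by
      rw [Submodule.coe_neg, Submodule.coe_sum]
      rfl
    rw [h4, LinearMap.neg_apply, LinearMap.sum_apply, (fn M t).map_neg, map_sum, fn_apply s,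
      ← Finset.sum_neg_distrib]
    refine Finset.sum_congr rfl fun i _ => ?_
    rw [LinearMap.smul_apply, (fn M t).map_smul, smul_eq_mul]
    have h5 := D.der_rel t i q
    have h6 : cf M i (D.at' t (e • q)) = -(fn M t (D.der t i (e • q))) := by linarith
    rw [h6]
    ring
  have h4 := Submodule.finrank_mono h3
  rw [LinearMap.finrank_range_dualMap_eq_finrank_range] at h4
  have h5 := finrank_xe e he (D.at' t)
  omega

end

end Pool.Agent.H447.Gen
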