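import Mathlib
import Pool.Agent.H447.Gen.Weight

set_option autoImplicit false
set_option linter.unusedSectionVars false

/-!
# Nearly multiplicity free modules: semistable spaces are generically nonsingular
-/

namespace Pool.Agent.H447.Gen

open Module MvPolynomial

variable {A : Type} [Ring A] [Algebra ℚ A]
  {Z : Type} [AddCommGroup Z] [Module ℚ Z] [Module A Z] [IsScalarTower ℚ A Z]
  [FiniteDimensional ℚ Z]
  {M : Type} [AddCommGroup M] [Module ℚ M] [Module A M] [IsScalarTower ℚ A M]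
  [FiniteDimensional ℚ M]

/-- Nearly multiplicity free, for the constituents of positive weight. -/
structure NearMF (e : A) (Z : Type) [AddCommGroup Z] [Module ℚ Z] [Module A Z]
    [IsScalarTower ℚ A Z] [FiniteDimensional ℚ Z] : Prop where
  scalar : ∀ S T : Submodule A Z, IsSimpleModule A S → IsSimpleModule A T → S ≠ T →
    Nonempty (S ≃ₗ[A] T) → 0 < wt e S → ∀ α : S →ₗ[A] S, ∃ r : ℚ, ∀ v, α v = r • v
  two : ∀ S T S₃ : Submodule A Z, IsSimpleModule A S → IsSimpleModule A T → S ≠ T →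
    Nonempty (S ≃ₗ[A] T) → Nonempty (S ≃ₗ[A] S₃) → 0 < wt e S → S₃ ≤ S ⊔ T
  unique : ∀ S T S' T' : Submodule A Z, IsSimpleModule A S → IsSimpleModule A T → S ≠ T →
    Nonempty (S ≃ₗ[A] T) → IsSimpleModule A S' → IsSimpleModule A T' → S' ≠ T' →
    Nonempty (S' ≃ₗ[A] T') → 0 < wt e S → 0 < wt e S' → Nonempty (S ≃ₗ[A] S')

/-- Semistability of a space of homomorphisms of a direct summand. -/
structure SS (e : A) (Λ : Submodule ℚ (Z →ₗ[A] M)) (Z' C' : Submodule A Z) : Prop where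
  compl : IsCompl Z' C'
  le_van : Λ ≤ van C'
  semi : ∀ Y ≤ Z', finrank ℚ ↥(Λ ⊓ van Y) + wt e Y ≤ wt e Z'

theorem van_sup (Y Y' : Submodule A Z) :
    (van (Y ⊔ Y') : Submodule ℚ (Z →ₗ[A] M)) = van Y ⊓ van Y' := by
  apply le_antisymm
  · exact le_inf (van_anti le_sup_left) (van_anti le_sup_right)
  · rintro x ⟨hx, hx'⟩ q hq
    obtain ⟨y, hy, y', hy', rfl⟩ := Submodule.mem_sup.mp hq
    rw [map_add, hx y hy, hx' y' hy', add_zero]

theorem GenInj.mono {e : A} {Λ Λ' : Submodule ℚ (Z →ₗ[A] M)} (h : GenInj e Λ') (hle : Λ ≤ Λ') :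
    GenInj e Λ := by
  obtain ⟨p, hp, h⟩ := h
  exact ⟨p, hp, fun t ht x hx => h t ht x (hle hx)⟩

section compl

variable [IsSemisimpleModule A Z]

theorem exists_rel_compl {Y Z' : Submodule A Z} (hY : Y ≤ Z') :
    ∃ Y'' : Submodule A Z, Disjoint Y'' Y ∧ Y'' ⊔ Y = Z' := by
  obtain ⟨C, hC⟩ := exists_isCompl Y
  refine ⟨C ⊓ Z', ?_, ?_⟩
  · exact hC.symm.disjoint.mono_left inf_le_left
  · rw [sup_comm, ← sup_inf_assoc_of_le _ hY, hC.sup_eq_top, top_inf_eq]

theorem exists_simple_le {Y : Submodule A Z} (hY : Y ≠ ⊥) :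
    ∃ S ≤ Y, IsSimpleModule A S := by
  rcases IsSemisimpleModule.eq_bot_or_exists_simple_le Y with h | h
  · exact absurd h hY
  · exact h

end compl

section induction

variable [IsSemisimpleModule A Z] {e : A} (he : e * e = e)

/-- The complement of a submodule of a summand. -/
theorem SS.rest {Λ : Submodule ℚ (Z →ₗ[A] M)} {Z' C' Y Y'' : Submodule A Z}
    (h : SS e Λ Z' C') (hY : Y ≤ Z') (hd : Disjoint Y'' Y) (hs : Y'' ⊔ Y = Z') :
    SS e (Λ ⊓ van Y) Y'' (Y ⊔ C') := by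
  have hwt : wt e Z' = wt e Y'' + wt e Y := by rw [← hs, wt_sup e hd]
  refine ⟨⟨?_, ?_⟩, ?_, ?_⟩
  · apply Disjoint.disjoint_sup_right_of_disjoint_sup_left hd
    rw [hs]
    exact h.compl.disjoint
  · rw [codisjoint_iff, ← sup_assoc, hs]
    exact h.compl.sup_eq_top
  · rw [van_sup]
    exact le_inf inf_le_right (inf_le_left.trans h.le_van)
  · intro W hW
    have h1 := h.semi (Y ⊔ W) (sup_le hY (hW.trans (le_sup_left.trans hs.le)))
    rw [van_sup, ← inf_assoc, wt_sup e (hd.mono_left hW).symm] at h1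
    omega

/-- composition with an endomorphism of `Z` -/
def compR (f : Z →ₗ[A] Z) : (Z →ₗ[A] M) →ₗ[ℚ] (Z →ₗ[A] M) where
  toFun x := x ∘ₗ f
  map_add' a b := rfl
  map_smul' r a := rfl

theorem SS.part {Λ : Submodule ℚ (Z →ₗ[A] M)} {Z' C' Y Y'' : Submodule A Z}
    (h : SS e Λ Z' C') (hY : Y ≤ Z') (hd : Disjoint Y'' Y) (hs : Y'' ⊔ Y = Z')
    (hsat : finrank ℚ ↥(Λ ⊓ van Y) + wt e Y = wt e Z') (f : Z →ₗ[A] Z)
    (hf : ∀ q ∈ Y, f q = q) (hf' : ∀ q ∈ Y'' ⊔ C', f q = 0) (hfY : ∀ q, f q ∈ Y) :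
    SS e (Λ.map (compR f)) Y (Y'' ⊔ C') := by
  have hwt : wt e Z' = wt e Y'' + wt e Y := by rw [← hs, wt_sup e hd]
  refine ⟨⟨?_, ?_⟩, ?_, ?_⟩
  · apply Disjoint.disjoint_sup_right_of_disjoint_sup_left hd.symm
    rw [sup_comm, hs]
    exact h.compl.disjoint
  · rw [codisjoint_iff, ← sup_assoc, sup_comm Y, hs]
    exact h.compl.sup_eq_top
  · rintro _ ⟨x, hx, rfl⟩ q hq
    show x (f q) = 0
    rw [hf' q hq, map_zero]
  · intro W hW
    have h1 := h.semi W (hW.trans hY)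
    let g : ↥(Λ ⊓ van W) →ₗ[ℚ] (Z →ₗ[A] M) := (compR f).domRestrict _
    have h2 := LinearMap.finrank_range_add_finrank_ker g
    have h3 : LinearMap.range g = Λ.map (compR f) ⊓ van W := by
      ext y
      constructor
      · rintro ⟨x, rfl⟩
        refine ⟨⟨x.1, x.2.1, rfl⟩, fun q hq => ?_⟩
        show x.1 (f q) = 0
        rw [hf q (hW hq)]
        exact x.2.2 q hq
      · rintro ⟨⟨x, hx, rfl⟩, hy⟩
        refine ⟨⟨x, hx, fun q hq => ?_⟩, rfl⟩
        have h4 : x (f q) = 0 := hy q hq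
        rwa [hf q (hW hq)] at h4
    have h5 : finrank ℚ (LinearMap.ker g) = finrank ℚ ↥(Λ ⊓ van Y) := by
      let i : LinearMap.ker g ≃ₗ[ℚ] ↥(Λ ⊓ van Y) :=
        { toFun := fun x => ⟨x.1.1, x.1.2.1, fun q hq => by
            have h4 := LinearMap.congr_fun (show x.1.1 ∘ₗ f = 0 from x.2) q
            have h6 : x.1.1 (f q) = 0 := h4
            rwa [hf q hq] at h6⟩
          invFun := fun x => ⟨⟨x.1, x.2.1, fun q hq => x.2.2 q (hW hq)⟩, by
            apply LinearMap.ext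
            intro q
            exact x.2.2 (f q) (hfY q)⟩
          left_inv := fun x => rfl
          right_inv := fun x => rfl
          map_add' := fun a b => rfl
          map_smul' := fun r a => rfl }
      exact i.finrank_eq
    rw [h3, h5] at h2
    omega

end induction

end Pool.Agent.H447.Gen
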