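import Mathlib
import Pool.Agent.H447.Gen.Main

set_option autoImplicit false
set_option linter.unusedSectionVars false

/-!
# The stable case
-/

namespace Pool.Agent.H447.Gen

open Module MvPolynomial

variable {A : Type} [Ring A] [Algebra ℚ A]
  {Z : Type} [AddCommGroup Z] [Module ℚ Z] [Module A Z] [IsScalarTower ℚ A Z]
  [FiniteDimensional ℚ Z]
  {M : Type} [AddCommGroup M] [Module ℚ M] [Module A M] [IsScalarTower ℚ A M]
  [FiniteDimensional ℚ M]

theorem simple_ne_bot {S : Submodule A Z} (hS : IsSimpleModule A S) : S ≠ ⊥ :=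
  (isSimpleModule_iff_isAtom.mp hS).1

section

variable [IsSemisimpleModule A Z] {e : A} (he : e * e = e) (hmf : NearMF e Z)

/-- An isotypic component which is not contained in `κ` gives a second simple submodule. -/
theorem exists_partner {Z' κ : Submodule A Z}
    (hκ : ∀ C ∈ isotypicComponents A Z, C ⊓ Z' ≠ ⊥ → ¬ C ⊓ Z' ≤ κ) {S : Submodule A Z}
    (hS : IsSimpleModule A S) (hSZ : S ≤ Z') (hSκ : S ≤ κ) :
    ∃ T : Submodule A Z, IsSimpleModule A T ∧ T ≤ Z' ∧ ¬ T ≤ κ ∧ S ≠ T ∧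
      Nonempty (S ≃ₗ[A] T) := by
  have hC : isotypicComponent A Z S ∈ isotypicComponents A Z := ⟨S, hS, rfl⟩
  have h1 : isotypicComponent A Z S ⊓ Z' ≠ ⊥ := by
    intro h
    have h2 : S ≤ isotypicComponent A Z S ⊓ Z' := le_inf (Submodule.le_isotypicComponent S) hSZ
    rw [h] at h2
    exact simple_ne_bot hS (le_bot_iff.mp h2)
  have h2 := hκ _ hC h1
  obtain ⟨T, hTs, hT, hTκ⟩ : ∃ T ≤ isotypicComponent A Z S ⊓ Z', IsSimpleModule A T ∧
      ¬ T ≤ κ := by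
    by_contra hcon
    push Not at hcon
    apply h2
    rw [← IsSemisimpleModule.sSup_simples_le (isotypicComponent A Z S ⊓ Z')]
    apply sSup_le
    rintro T ⟨hT, hT'⟩
    exact hcon T hT' hT
  refine ⟨T, hT, hTs.trans inf_le_right, hTκ, ?_, ?_⟩
  · rintro rfl
    exact hTκ hSκ
  · obtain ⟨f⟩ := isIsotypicOfType_submodule_iff.mp (IsIsotypicOfType.isotypicComponent A Z S) T
      (hTs.trans inf_le_left)
    exact ⟨f.symm⟩

include hmf in
/-- The kernel on `Z'` is zero or simple and of the double type. -/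
theorem kernel_cases {Z' κ : Submodule A Z} (hpos : ∀ S ≤ Z', IsSimpleModule A S → 0 < wt e S)
    (hκ : ∀ C ∈ isotypicComponents A Z, C ⊓ Z' ≠ ⊥ → ¬ C ⊓ Z' ≤ κ) :
    κ ⊓ Z' = ⊥ ∨ (IsSimpleModule A ↥(κ ⊓ Z') ∧ ∃ T : Submodule A Z, IsSimpleModule A T ∧
      T ≤ Z' ∧ ¬ T ≤ κ ∧ κ ⊓ Z' ≠ T ∧ Nonempty (↥(κ ⊓ Z') ≃ₗ[A] T)) := by
  by_cases h0 : κ ⊓ Z' = ⊥
  · exact Or.inl h0
  right
  obtain ⟨S, hSκ, hS⟩ := exists_simple_le h0
  obtain ⟨T, hT, hTZ, hTκ, hST, hiso⟩ := exists_partner hκ hS (hSκ.trans inf_le_right)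
    (hSκ.trans inf_le_left)
  have hSeq : κ ⊓ Z' = S := by
    by_contra hne
    obtain ⟨R, hRd, hRs⟩ := exists_rel_compl hSκ
    have hR0 : R ≠ ⊥ := by
      rintro rfl
      rw [bot_sup_eq] at hRs
      exact hne hRs.symm
    obtain ⟨S₂, hS₂R, hS₂⟩ := exists_simple_le hR0
    have hS₂κ : S₂ ≤ κ ⊓ Z' := hS₂R.trans (le_sup_left.trans hRs.le)
    obtain ⟨T₂, hT₂, hT₂Z, hT₂κ, hST₂, hiso₂⟩ := exists_partner hκ hS₂ (hS₂κ.trans inf_le_right)
      (hS₂κ.trans inf_le_left)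
    have hSS : Nonempty (S ≃ₗ[A] S₂) := hmf.unique S T S₂ T₂ hS hT hST hiso hS₂ hT₂ hST₂ hiso₂
      (hpos S (hSκ.trans inf_le_right) hS) (hpos S₂ (hS₂κ.trans inf_le_right) hS₂)
    have hne₂ : S ≠ S₂ := by
      rintro rfl
      have h1 : S ≤ R ⊓ S := le_inf hS₂R le_rfl
      rw [hRd.eq_bot] at h1
      exact simple_ne_bot hS (le_bot_iff.mp h1)
    have h2 := hmf.two S S₂ T hS hS₂ hne₂ hSS hiso (hpos S (hSκ.trans inf_le_right) hS)
    exact hTκ (h2.trans (sup_le (hSκ.trans inf_le_left) (hS₂κ.trans inf_le_left)))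
  rw [hSeq]
  exact ⟨hS, T, hT, hTZ, hTκ, hST, hiso⟩

include hmf in
/-- In the double type the values on two copies are proportional. -/
theorem proportional {Z' κ S T T' : Submodule A Z}
    (hpos : ∀ S ≤ Z', IsSimpleModule A S → 0 < wt e S)
    (hS : IsSimpleModule A S) (hT : IsSimpleModule A T) (hST : S ≠ T) (f : S ≃ₗ[A] T)
    (hSZ : S ≤ Z') (hκ : IsSimpleModule A κ) (hκZ : κ ≤ Z') (hT' : IsSimpleModule A T')
    (hκT : κ ≠ T') (hiso : Nonempty (κ ≃ₗ[A] T')) :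
    ∃ a b : ℚ, (a ≠ 0 ∨ b ≠ 0) ∧ ∀ v : S, a • (v : Z) + b • (f v : Z) ∈ κ := by
  obtain ⟨g⟩ := hmf.unique S T κ T' hS hT hST ⟨f⟩ hκ hT' hκT hiso (hpos S hSZ hS)
    (hpos κ hκZ hκ)
  have hle : κ ≤ S ⊔ T := hmf.two S T κ hS hT hST ⟨f⟩ ⟨g⟩ (hpos S hSZ hS)
  have hdisj : Disjoint S T := by
    rw [disjoint_iff]
    by_contra h
    have h1 := ((isSimpleModule_iff_isAtom.mp hS).le_iff_eq h).mp inf_le_left
    have h2 := ((isSimpleModule_iff_isAtom.mp hT).le_iff_eq h).mp inf_le_right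
    exact hST (h1.symm.trans h2)
  obtain ⟨R, hR⟩ := exists_isCompl (S ⊔ T)
  have hc1 : IsCompl S (T ⊔ R) := by
    refine ⟨?_, ?_⟩
    · exact Disjoint.disjoint_sup_right_of_disjoint_sup_left hdisj hR.disjoint
    · rw [codisjoint_iff, ← sup_assoc]
      exact hR.sup_eq_top
  have hc2 : IsCompl T (S ⊔ R) := by
    refine ⟨?_, ?_⟩
    · apply Disjoint.disjoint_sup_right_of_disjoint_sup_left hdisj.symm
      rw [sup_comm]
      exact hR.disjoint
    · rw [codisjoint_iff, ← sup_assoc, sup_comm T]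
      exact hR.sup_eq_top
  let prS : Z →ₗ[A] S := S.projectionOnto (T ⊔ R) hc1
  let prT : Z →ₗ[A] T := T.projectionOnto (S ⊔ R) hc2
  have hsum : ∀ z ∈ S ⊔ T, z = (prS z : Z) + (prT z : Z) := by
    intro z hz
    obtain ⟨s, hs, t, ht, rfl⟩ := Submodule.mem_sup.mp hz
    have h1 : prS (s + t) = ⟨s, hs⟩ := by
      rw [map_add]
      have h2 : prS s = ⟨s, hs⟩ := Submodule.projectionOnto_apply_of_mem_left hc1 hs
      have h3 : prS t = 0 :=
        (Submodule.projectionOnto_apply_eq_zero_iff hc1).mpr (Submodule.mem_sup_left ht)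
      rw [h2, h3, add_zero]
    have h4 : prT (s + t) = ⟨t, ht⟩ := by
      rw [map_add]
      have h2 : prT t = ⟨t, ht⟩ := Submodule.projectionOnto_apply_of_mem_left hc2 ht
      have h3 : prT s = 0 :=
        (Submodule.projectionOnto_apply_eq_zero_iff hc2).mpr (Submodule.mem_sup_left hs)
      rw [h2, h3, zero_add]
    rw [h1, h4]
  obtain ⟨a, ha⟩ := hmf.scalar S T hS hT hST ⟨f⟩ (hpos S hSZ hS)
    (prS ∘ₗ κ.subtype ∘ₗ g.toLinearMap)
  obtain ⟨b, hb⟩ := hmf.scalar S T hS hT hST ⟨f⟩ (hpos S hSZ hS)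
    (f.symm.toLinearMap ∘ₗ prT ∘ₗ κ.subtype ∘ₗ g.toLinearMap)
  have hval : ∀ v : S, ((g v : κ) : Z) = a • (v : Z) + b • (f v : Z) := by
    intro v
    have h1 : prS ((g v : κ) : Z) = a • v := ha v
    have h2 : f.symm (prT ((g v : κ) : Z)) = b • v := hb v
    have h3 : prT ((g v : κ) : Z) = b • f v := by
      have h4 := congrArg f h2
      rw [LinearEquiv.apply_symm_apply] at h4
      rw [h4]
      exact f.toLinearMap.map_smul_of_tower b v
    rw [hsum _ (hle (g v).2), h1, h3]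
    rfl
  refine ⟨a, b, ?_, fun v => ?_⟩
  · by_contra hcon
    push Not at hcon
    have hnt := IsSimpleModule.nontrivial A S
    obtain ⟨v, hv⟩ := exists_ne (0 : S)
    apply hv
    apply g.injective
    rw [map_zero]
    apply Subtype.ext
    rw [hval v, hcon.1, hcon.2, zero_smul, zero_smul, add_zero]
    rfl
  · rw [← hval v]
    exact (g v).2

end

end Pool.Agent.H447.Gen
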