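import Mathlib
import Pool.Agent.H447.Gen.Stable

set_option autoImplicit false
set_option linter.unusedSectionVars false

/-!
# The stable step: the derivatives of the kernel vector
-/

namespace Pool.Agent.H447.Gen

open Module MvPolynomial

variable {A : Type} [Ring A] [Algebra ℚ A]
  {Z : Type} [AddCommGroup Z] [Module ℚ Z] [Module A Z] [IsScalarTower ℚ A Z]
  [FiniteDimensional ℚ Z]
  {M : Type} [AddCommGroup M] [Module ℚ M] [Module A M] [IsScalarTower ℚ A M]
  [FiniteDimensional ℚ M]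

/-- Two proportional rows. -/
theorem minor_zero {a b x y x' y' : ℚ} (hab : a ≠ 0 ∨ b ≠ 0) (h : a * x + b * y = 0)
    (h' : a * x' + b * y' = 0) : x * y' - y * x' = 0 := by
  rcases hab with ha | hb
  · have : a * (x * y' - y * x') = 0 := by linear_combination y' * h - y * h'
    exact (mul_eq_zero.mp this).resolve_left ha
  · have : b * (x * y' - y * x') = 0 := by linear_combination x * h' - x' * h
    exact (mul_eq_zero.mp this).resolve_left hb

section

variable {e : A} {Λ : Submodule ℚ (Z →ₗ[A] M)} (D : KerData e Λ)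

/-- The coordinates of the values of the kernel vector. -/
noncomputable def KerData.cp (i : Fin (finrank ℚ M)) (q : Z) :
    MvPolynomial (Fin (finrank ℚ M)) ℚ := ∑ k, D.ξ k * C (cf M i (D.x k q))

theorem KerData.eval_cp (t : Fin (finrank ℚ M) → ℚ) (i : Fin (finrank ℚ M)) (q : Z) :
    eval t (D.cp i q) = cf M i (D.at' t q) := by
  rw [KerData.cp, map_sum, D.at_apply, map_sum]
  refine Finset.sum_congr rfl fun k _ => ?_
  rw [map_mul, eval_C, (cf M i).map_smul, smul_eq_mul]

theorem KerData.eval_pderiv_cp (t : Fin (finrank ℚ M) → ℚ) (j i : Fin (finrank ℚ M)) (q : Z) :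
    eval t (pderiv j (D.cp i q)) = cf M i (D.der t j q) := by
  rw [KerData.cp, map_sum, map_sum, D.der_apply, map_sum]
  refine Finset.sum_congr rfl fun k _ => ?_
  rw [Derivation.leibniz, pderiv_C, smul_zero, zero_add, smul_eq_mul, map_mul, eval_C,
    (cf M i).map_smul, smul_eq_mul, mul_comm]

/-- The derivatives are proportional to the value on a partner. -/
theorem KerData.der_eq (P : MvPolynomial (Fin (finrank ℚ M)) ℚ) (hP : P ≠ 0) {S : Type}
    (u v : S → Z)
    (h : ∀ t, eval t P ≠ 0 → ∃ a b : ℚ, (a ≠ 0 ∨ b ≠ 0) ∧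
      ∀ s, a • D.at' t (u s) + b • D.at' t (v s) = 0)
    (t₁ : Fin (finrank ℚ M) → ℚ) (hu : ∀ s, D.at' t₁ (u s) = 0) (hv : ∃ s, D.at' t₁ (v s) ≠ 0)
    (j : Fin (finrank ℚ M)) : ∃ r : ℚ, ∀ s, D.der t₁ j (u s) = r • D.at' t₁ (v s) := by
  obtain ⟨s₀, hs₀⟩ := hv
  obtain ⟨i₀, hi₀⟩ : ∃ i, cf M i (D.at' t₁ (v s₀)) ≠ 0 := by
    by_contra hcon
    push Not at hcon
    exact hs₀ (ext_cf hcon)
  refine ⟨cf M i₀ (D.der t₁ j (u s₀)) / cf M i₀ (D.at' t₁ (v s₀)), fun s => ?_⟩
  rw [← sub_eq_zero]
  apply ext_cf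
  intro i
  -- the minor
  have hW : D.cp i (u s) * D.cp i₀ (v s₀) - D.cp i (v s) * D.cp i₀ (u s₀) = 0 := by
    have h1 : P * (D.cp i (u s) * D.cp i₀ (v s₀) - D.cp i (v s) * D.cp i₀ (u s₀)) = 0 := by
      apply MvPolynomial.funext
      intro t
      rw [map_mul, map_zero]
      by_cases ht : eval t P = 0
      · rw [ht, zero_mul]
      · obtain ⟨a, b, hab, hrel⟩ := h t ht
        rw [map_sub, map_mul, map_mul, D.eval_cp, D.eval_cp, D.eval_cp, D.eval_cp]
        have h2 : a * cf M i (D.at' t (u s)) + b * cf M i (D.at' t (v s)) = 0 := by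
          have := congrArg (cf M i) (hrel s)
          rwa [map_add, map_zero, (cf M i).map_smul, (cf M i).map_smul] at this
        have h3 : a * cf M i₀ (D.at' t (u s₀)) + b * cf M i₀ (D.at' t (v s₀)) = 0 := by
          have := congrArg (cf M i₀) (hrel s₀)
          rwa [map_add, map_zero, (cf M i₀).map_smul, (cf M i₀).map_smul] at this
        rw [minor_zero hab h2 h3, mul_zero]
    exact (mul_eq_zero.mp h1).resolve_left hP
  have h1 := congrArg (fun p => eval t₁ (pderiv j p)) hW
  simp only [map_sub, Derivation.leibniz, smul_eq_mul, map_add, map_mul, map_zero, D.eval_cp,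
    D.eval_pderiv_cp, hu, zero_mul, add_zero, zero_add] at h1
  rw [map_sub, (cf M i).map_smul, smul_eq_mul]
  field_simp
  linarith

end

end Pool.Agent.H447.Gen
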