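import Mathlib
import Pool.Agent.H447.Gen.Step

set_option autoImplicit false
set_option linter.unusedSectionVars false

/-!
# Nearly multiplicity free modules: semistable spaces are generically nonsingular
-/

namespace Pool.Agent.H447.Gen

open Module MvPolynomial

variable {A : Type} [Ring A] [Algebra ℚ A]
  {Z : Type} [AddCommGroup Z] [Module ℚ Z] [Module A Z] [IsScalarTower ℚ A Z]
  [FiniteDimensional ℚ Z]
  {M : Type} [AddCommGroup M] [Module ℚ M] [Module A M] [IsScalarTower ℚ A M]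
  [FiniteDimensional ℚ M]

variable [IsSemisimpleModule A Z] {e : A} (he : e * e = e) (hmf : NearMF e Z)

/-- `A` is noetherian on `Z`. -/
theorem noeth (A Z : Type) [Ring A] [Algebra ℚ A] [AddCommGroup Z] [Module ℚ Z] [Module A Z]
    [IsScalarTower ℚ A Z] [FiniteDimensional ℚ Z] : IsNoetherian A Z :=
  isNoetherian_of_tower ℚ inferInstance

/-- A polynomial for the isotypic components. -/
theorem exists_iso_poly (Λ : Submodule ℚ (Z →ₗ[A] M)) (Z' : Submodule A Z)
    (hgen : ∀ Y ≤ Z', Y ≠ ⊥ → GenInj e (Λ ⊓ van Y)) :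
    ∃ P : MvPolynomial (Fin (finrank ℚ M)) ℚ, P ≠ 0 ∧ ∀ t, eval t P ≠ 0 →
      ∀ C ∈ isotypicComponents A Z, C ⊓ Z' ≠ ⊥ → ∀ x ∈ Λ ⊓ van (C ⊓ Z'),
        (∀ q : Z, fn M t (x (e • q)) = 0) → x = 0 := by
  classical
  have := noeth A Z
  have hfin : (isotypicComponents A Z).Finite := Set.finite_coe_iff.mp inferInstance
  have hch : ∀ C : Submodule A Z, ∃ P : MvPolynomial (Fin (finrank ℚ M)) ℚ, P ≠ 0 ∧
      (C ⊓ Z' ≠ ⊥ → ∀ t, eval t P ≠ 0 → ∀ x ∈ Λ ⊓ van (C ⊓ Z'),
        (∀ q : Z, fn M t (x (e • q)) = 0) → x = 0) := by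
    intro C
    by_cases h : C ⊓ Z' = ⊥
    · exact ⟨1, one_ne_zero, fun h' => absurd h h'⟩
    · obtain ⟨p, hp, h1⟩ := hgen (C ⊓ Z') inf_le_right h
      exact ⟨p, hp, fun _ => h1⟩
  choose P hP hP' using hch
  refine ⟨∏ C ∈ hfin.toFinset, P C, Finset.prod_ne_zero_iff.mpr fun C _ => hP C, ?_⟩
  intro t ht C hC hne
  rw [map_prod, Finset.prod_ne_zero_iff] at ht
  exact hP' C hne t (ht C (hfin.mem_toFinset.mpr hC))

include he hmf in
/-- The stable case. -/
theorem stable_case {Λ : Submodule ℚ (Z →ₗ[A] M)} {Z' C' : Submodule A Z} (h : SS e Λ Z' C')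
    (hpos : ∀ S ≤ Z', IsSimpleModule A S → 0 < wt e S)
    (hst : ∀ Y ≤ Z', Y ≠ ⊥ → Y ≠ Z' → finrank ℚ ↥(Λ ⊓ van Y) + wt e Y < wt e Z')
    (hgen : ∀ Y ≤ Z', Y ≠ ⊥ → GenInj e (Λ ⊓ van Y)) : GenInj e Λ := by
  classical
  rcases genInj_or e Λ with hg | ⟨⟨D⟩⟩
  · exact hg
  exfalso
  obtain ⟨P₁, hP₁, hP₁'⟩ := exists_iso_poly Λ Z' hgen
  obtain ⟨P₂, hP₂, hP₂'⟩ := D.exists_nonzero
  have hP : P₁ * P₂ ≠ 0 := mul_ne_zero hP₁ hP₂
  -- the weight of the kernel
  have hker : ∀ t, wt e (LinearMap.ker (D.at' t)) =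
      wt e C' + wt e (LinearMap.ker (D.at' t) ⊓ Z') := by
    intro t
    have hC : C' ≤ LinearMap.ker (D.at' t) := fun q hq => h.le_van (D.at_mem t) q hq
    have h1 : LinearMap.ker (D.at' t) = C' ⊔ (LinearMap.ker (D.at' t) ⊓ Z') := by
      rw [inf_comm, ← sup_inf_assoc_of_le _ hC, sup_comm, h.compl.sup_eq_top, top_inf_eq]
    conv_lhs => rw [h1]
    rw [wt_sup e (h.compl.disjoint.symm.mono_right inf_le_right)]
  have htop : wt e (⊤ : Submodule A Z) = wt e Z' + wt e C' := by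
    rw [← h.compl.sup_eq_top, wt_sup e h.compl.disjoint]
  -- the kernels at good points
  have hiso : ∀ t, eval t (P₁ * P₂) ≠ 0 → ∀ C ∈ isotypicComponents A Z, C ⊓ Z' ≠ ⊥ →
      ¬ C ⊓ Z' ≤ LinearMap.ker (D.at' t) := by
    intro t ht C hC hne hle
    rw [map_mul] at ht
    have h1 := hP₁' t (left_ne_zero_of_mul ht) C hC hne (D.at' t) ⟨D.at_mem t, fun q hq => hle hq⟩
      (D.at_rel t)
    exact hP₂' t (right_ne_zero_of_mul ht) h1
  have hne0 : ∀ t, eval t (P₁ * P₂) ≠ 0 → D.at' t ≠ 0 := by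
    intro t ht
    rw [map_mul] at ht
    exact hP₂' t (right_ne_zero_of_mul ht)
  have hnot : ∀ t, eval t (P₁ * P₂) ≠ 0 → LinearMap.ker (D.at' t) ⊓ Z' ≠ ⊥ := by
    intro t ht h0
    have h1 := tangent he D t (hne0 t ht) Λ (D.at_mem t) (fun i => D.der_mem t i)
    rw [hker t, htop, h0, wt_bot] at h1
    have h2 := h.semi ⊥ bot_le
    have h3 : Λ ⊓ van (⊥ : Submodule A Z) = Λ := by
      apply le_antisymm inf_le_left
      refine le_inf le_rfl ?_
      intro x _ q hq
      rw [(Submodule.mem_bot A).mp hq, map_zero]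
    rw [h3, wt_bot] at h2
    omega
  obtain ⟨t₁, ht₁⟩ := exists_eval_ne (P₁ * P₂) hP
  rcases kernel_cases hmf hpos (hiso t₁ ht₁) with h0 | ⟨hS, T, hT, hTZ, hTκ, hST, ⟨f⟩⟩
  · exact hnot t₁ ht₁ h0
  -- the derivatives
  have hder : ∀ j, ∃ r : ℚ, ∀ s : ↥(LinearMap.ker (D.at' t₁) ⊓ Z'),
      D.der t₁ j (s : Z) = r • D.at' t₁ (f s : Z) := by
    apply D.der_eq (P₁ * P₂) hP (fun s : ↥(LinearMap.ker (D.at' t₁) ⊓ Z') => (s : Z))
      (fun s => (f s : Z))
    · intro t ht
      rcases kernel_cases hmf hpos (hiso t ht) with h0 | ⟨hS', T', hT', hTZ', hTκ', hST', hf'⟩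
      · exact absurd h0 (hnot t ht)
      obtain ⟨a, b, hab, hmem⟩ := proportional hmf hpos hS hT hST f inf_le_right hS'
        inf_le_right hT' hST' hf'
      refine ⟨a, b, hab, fun s => ?_⟩
      have h1 : D.at' t (a • (s : Z) + b • (f s : Z)) = 0 := (hmem s).1
      have h2 : ∀ (r : ℚ) (q : Z), D.at' t (r • q) = r • D.at' t q := fun r q =>
        (D.at' t).map_smul_of_tower r q
      rw [map_add, h2, h2] at h1
      exact h1
    · intro s
      exact s.2.1
    · by_contra hcon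
      push Not at hcon
      apply hTκ
      intro q hq
      obtain ⟨s, hs⟩ := f.surjective ⟨q, hq⟩
      have h1 := hcon s
      rw [hs] at h1
      exact h1
  -- the tangent space
  obtain ⟨s₀, hs₀⟩ : ∃ s : ↥(LinearMap.ker (D.at' t₁) ⊓ Z'), D.at' t₁ (f s : Z) ≠ 0 := by
    by_contra hcon
    push Not at hcon
    apply hTκ
    intro q hq
    obtain ⟨s, hs⟩ := f.surjective ⟨q, hq⟩
    have h1 := hcon s
    rw [hs] at h1
    exact h1
  obtain ⟨i₀, hi₀⟩ : ∃ i, cf M i (D.at' t₁ (f s₀ : Z)) ≠ 0 := by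
    by_contra hcon
    push Not at hcon
    exact hs₀ (ext_cf hcon)
  let T₀ : Submodule ℚ (Z →ₗ[A] M) :=
    { carrier := {η | η ∈ Λ ∧ ∃ r : ℚ, ∀ s : ↥(LinearMap.ker (D.at' t₁) ⊓ Z'),
        η (s : Z) = r • D.at' t₁ (f s : Z)}
      add_mem' := by
        rintro a b ⟨ha, r, hr⟩ ⟨hb, r', hr'⟩
        refine ⟨Λ.add_mem ha hb, r + r', fun s => ?_⟩
        rw [LinearMap.add_apply, hr, hr', add_smul]
      zero_mem' := ⟨Λ.zero_mem, 0, fun s => by rw [zero_smul]; rfl⟩
      smul_mem' := by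
        rintro a b ⟨hb, r, hr⟩
        refine ⟨Λ.smul_mem a hb, a * r, fun s => ?_⟩
        rw [LinearMap.smul_apply, hr, mul_smul] }
  have hat : D.at' t₁ ∈ T₀ := ⟨D.at_mem t₁, 0, fun s => by rw [zero_smul]; exact s.2.1⟩
  have hder' : ∀ i, D.der t₁ i ∈ T₀ := fun i => ⟨D.der_mem t₁ i, hder i⟩
  have h1 := tangent he D t₁ (hne0 t₁ ht₁) T₀ hat hder'
  rw [hker t₁, htop] at h1
  -- dimension of `T₀`
  have h2 : finrank ℚ T₀ ≤ finrank ℚ ↥(Λ ⊓ van (LinearMap.ker (D.at' t₁) ⊓ Z')) + 1 := by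
    let g : T₀ →ₗ[ℚ] ℚ :=
      { toFun := fun η => cf M i₀ (η.1 (s₀ : Z))
        map_add' := fun a b => by
          show cf M i₀ ((a.1 + b.1) (s₀ : Z)) = _
          rw [LinearMap.add_apply, map_add]
        map_smul' := fun r a => by
          show cf M i₀ ((r • a.1) (s₀ : Z)) = _
          rw [LinearMap.smul_apply, (cf M i₀).map_smul]
          rfl }
    have h3 := LinearMap.finrank_range_add_finrank_ker g
    have h4 : finrank ℚ (LinearMap.range g) ≤ 1 := by
      have := Submodule.finrank_le (LinearMap.range g)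
      rwa [Module.finrank_self] at this
    have h5 : finrank ℚ (LinearMap.ker g) ≤
        finrank ℚ ↥(Λ ⊓ van (LinearMap.ker (D.at' t₁) ⊓ Z')) := by
      let i : LinearMap.ker g →ₗ[ℚ] ↥(Λ ⊓ van (LinearMap.ker (D.at' t₁) ⊓ Z')) :=
        { toFun := fun η => ⟨η.1.1, η.1.2.1, by
            obtain ⟨r, hr⟩ := η.1.2.2
            have h6 : cf M i₀ (η.1.1 (s₀ : Z)) = 0 := η.2
            rw [hr s₀, (cf M i₀).map_smul, smul_eq_mul] at h6
            have h7 : r = 0 := (mul_eq_zero.mp h6).resolve_right hi₀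
            intro q hq
            have h8 := hr ⟨q, hq⟩
            rw [h7, zero_smul] at h8
            exact h8⟩
          map_add' := fun a b => rfl
          map_smul' := fun r a => rfl }
      refine LinearMap.finrank_le_finrank_of_injective (f := i) ?_
      intro a b hab
      have h6 := congrArg Subtype.val hab
      apply Subtype.ext
      apply Subtype.ext
      exact h6
    omega
  have h3 := hst (LinearMap.ker (D.at' t₁) ⊓ Z') inf_le_right (simple_ne_bot hS) (by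
    intro h0
    apply hTκ
    exact hTZ.trans (h0.symm.le.trans inf_le_left))
  omega

include he hmf in
/-- The main theorem for summands whose simple submodules have positive weight. -/
theorem genInj_pos (n : ℕ) : ∀ {Λ : Submodule ℚ (Z →ₗ[A] M)} {Z' C' : Submodule A Z},
    wt e Z' = n → SS e Λ Z' C' → (∀ S ≤ Z', IsSimpleModule A S → 0 < wt e S) →
    GenInj e Λ := by
  induction n using Nat.strong_induction_on with
  | _ n ih =>
    intro Λ Z' C' hn h hpos
    have hwpos : ∀ Y ≤ Z', Y ≠ ⊥ → 0 < wt e Y := by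
      intro Y hY hne
      obtain ⟨S, hS, hS'⟩ := exists_simple_le hne
      exact lt_of_lt_of_le (hpos S (hS.trans hY) hS') (wt_mono e hS)
    -- the quotient problem
    have hrest : ∀ Y ≤ Z', Y ≠ ⊥ → GenInj e (Λ ⊓ van Y) := by
      intro Y hY hne
      obtain ⟨Y'', hd, hs⟩ := exists_rel_compl hY
      have hwt : wt e Z' = wt e Y'' + wt e Y := by rw [← hs, wt_sup e hd]
      have h1 := hwpos Y hY hne
      exact ih (wt e Y'') (by omega) rfl (h.rest hY hd hs)
        (fun S hS => hpos S (hS.trans (le_sup_left.trans hs.le)))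
    by_cases hst : ∀ Y ≤ Z', Y ≠ ⊥ → Y ≠ Z' → finrank ℚ ↥(Λ ⊓ van Y) + wt e Y < wt e Z'
    · exact stable_case he hmf h hpos hst hrest
    · push Not at hst
      obtain ⟨Y, hY, hne, hneZ, hle⟩ := hst
      obtain ⟨Y'', hd, hs⟩ := exists_rel_compl hY
      have hwt : wt e Z' = wt e Y'' + wt e Y := by rw [← hs, wt_sup e hd]
      have hY''0 : Y'' ≠ ⊥ := by
        rintro rfl
        rw [bot_sup_eq] at hs
        exact hneZ hs
      have h1 := hwpos Y'' (le_sup_left.trans hs.le) hY''0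
      have hsat : finrank ℚ ↥(Λ ⊓ van Y) + wt e Y = wt e Z' := le_antisymm (h.semi Y hY) hle
      -- the projection
      have hc : IsCompl Y (Y'' ⊔ C') := by
        refine ⟨?_, ?_⟩
        · apply Disjoint.disjoint_sup_right_of_disjoint_sup_left hd.symm
          rw [sup_comm, hs]
          exact h.compl.disjoint
        · rw [codisjoint_iff, ← sup_assoc, sup_comm Y, hs]
          exact h.compl.sup_eq_top
      let f : Z →ₗ[A] Z := Y.subtype ∘ₗ Y.projectionOnto (Y'' ⊔ C') hc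
      have hf : ∀ q ∈ Y, f q = q := by
        intro q hq
        show ((Y.projectionOnto (Y'' ⊔ C') hc q : Y) : Z) = q
        rw [Submodule.projectionOnto_apply_of_mem_left hc hq]
      have hf' : ∀ q ∈ Y'' ⊔ C', f q = 0 := by
        intro q hq
        show ((Y.projectionOnto (Y'' ⊔ C') hc q : Y) : Z) = 0
        rw [(Submodule.projectionOnto_apply_eq_zero_iff hc).mpr hq]
        rfl
      have hfY : ∀ q, f q ∈ Y := fun q => (Y.projectionOnto (Y'' ⊔ C') hc q).2
      obtain ⟨p₁, hp₁, hp₁'⟩ := hrest Y hY hne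
      obtain ⟨p₂, hp₂, hp₂'⟩ := ih (wt e Y) (by omega) rfl (h.part hY hd hs hsat f hf hf' hfY)
        (fun S hS => hpos S (hS.trans hY))
      refine ⟨p₁ * p₂, mul_ne_zero hp₁ hp₂, fun t ht x hx hq => ?_⟩
      rw [map_mul] at ht
      apply hp₁' t (left_ne_zero_of_mul ht) x ⟨hx, ?_⟩ hq
      have h2 := hp₂' t (right_ne_zero_of_mul ht) (compR f x) ⟨x, hx, rfl⟩ (fun q => by
        show fn M t (x (f (e • q))) = 0
        rw [map_smul]
        exact hq (f q))
      intro q hqY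
      have h3 : x (f q) = 0 := LinearMap.congr_fun h2 q
      rwa [hf q hqY] at h3

/-- The largest submodule of weight zero. -/
def weightless (e : A) : Submodule A Z where
  carrier := {z | ∀ a : A, e • a • z = 0}
  add_mem' := fun {x y} hx hy a => by rw [smul_add, smul_add, hx a, hy a, add_zero]
  zero_mem' := fun a => by rw [smul_zero, smul_zero]
  smul_mem' := fun b x hx a => by rw [smul_smul a b x]; exact hx (a * b)

theorem wt_weightless : wt e (weightless e : Submodule A Z) = 0 := by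
  unfold wt
  have h : ePart e (weightless e : Submodule A Z) = ⊥ := by
    rw [eq_bot_iff]
    rintro z ⟨hz, hez⟩
    have h1 := hz 1
    rw [one_smul, hez] at h1
    exact (Submodule.mem_bot ℚ).mpr h1
  rw [h, finrank_bot]

include he in
theorem le_weightless {S : Submodule A Z} (h : wt e S = 0) : S ≤ weightless e := by
  intro z hz a
  have h1 : ePart e S = ⊥ := Submodule.finrank_eq_zero.mp h
  have h2 : e • a • z ∈ ePart e S := ⟨S.smul_mem _ (S.smul_mem _ hz), by
    rw [smul_smul e e, he]⟩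
  rw [h1] at h2
  exact (Submodule.mem_bot ℚ).mp h2

include he hmf in
/-- **Main theorem of the abstract part.** A semistable space of homomorphisms from a nearly
multiplicity free module is generically injective. -/
theorem genInj_of_semi (Λ : Submodule ℚ (Z →ₗ[A] M))
    (hss : ∀ Y : Submodule A Z, finrank ℚ ↥(Λ ⊓ van Y) + wt e Y ≤ wt e (⊤ : Submodule A Z)) :
    GenInj e Λ := by
  obtain ⟨Z', hZ'⟩ := exists_isCompl (weightless e : Submodule A Z)
  have hd : Disjoint (weightless e : Submodule A Z) Z' := hZ'.disjoint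
  have hs : (weightless e : Submodule A Z) ⊔ Z' = ⊤ := hZ'.sup_eq_top
  have hwt : wt e (⊤ : Submodule A Z) = wt e Z' := by
    rw [← hs, wt_sup e hd, wt_weightless, zero_add]
  have hSS : SS e Λ ⊤ ⊥ := by
    refine ⟨isCompl_top_bot, ?_, fun Y _ => hss Y⟩
    intro x _ q hq
    rw [(Submodule.mem_bot A).mp hq, map_zero]
  have hsat : finrank ℚ ↥(Λ ⊓ van Z') + wt e Z' = wt e (⊤ : Submodule A Z) := by
    have := hss Z'
    omega
  have hc : IsCompl Z' ((weightless e : Submodule A Z) ⊔ ⊥) := by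
    rw [sup_bot_eq]
    exact hZ'.symm
  let f : Z →ₗ[A] Z := Z'.subtype ∘ₗ Z'.projectionOnto ((weightless e : Submodule A Z) ⊔ ⊥) hc
  have hf : ∀ q ∈ Z', f q = q := by
    intro q hq
    show ((Z'.projectionOnto ((weightless e : Submodule A Z) ⊔ ⊥) hc q : Z') : Z) = q
    rw [Submodule.projectionOnto_apply_of_mem_left hc hq]
  have hf' : ∀ q ∈ (weightless e : Submodule A Z) ⊔ ⊥, f q = 0 := by
    intro q hq
    show ((Z'.projectionOnto ((weightless e : Submodule A Z) ⊔ ⊥) hc q : Z') : Z) = 0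
    rw [(Submodule.projectionOnto_apply_eq_zero_iff hc).mpr hq]
    rfl
  have hfY : ∀ q, f q ∈ Z' := fun q =>
    (Z'.projectionOnto ((weightless e : Submodule A Z) ⊔ ⊥) hc q).2
  have hpos : ∀ S ≤ Z', IsSimpleModule A S → 0 < wt e S := by
    intro S hS hS'
    by_contra hcon
    have h1 : S ≤ weightless e ⊓ Z' := le_inf (le_weightless he (by omega)) hS
    rw [hd.eq_bot] at h1
    exact simple_ne_bot hS' (le_bot_iff.mp h1)
  obtain ⟨p, hp, hp'⟩ := genInj_pos he hmf (wt e Z') rfl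
    (hSS.part le_top hd hs hsat f hf hf' hfY) hpos
  refine ⟨p, hp, fun t ht x hx hq => ?_⟩
  have h2 := hp' t ht (compR f x) ⟨x, hx, rfl⟩ (fun q => by
    show fn M t (x (f (e • q))) = 0
    rw [map_smul]
    exact hq (f q))
  have h3 : x ∈ Λ ⊓ van Z' := by
    refine ⟨hx, fun q hqY => ?_⟩
    have h3 : x (f q) = 0 := LinearMap.congr_fun h2 q
    rwa [hf q hqY] at h3
  have h4 : Λ ⊓ van Z' = ⊥ := by
    apply Submodule.finrank_eq_zero.mp
    omega
  rw [h4] at h3
  exact (Submodule.mem_bot ℚ).mp h3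

end Pool.Agent.H447.Gen
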