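import Mathlib
import Pool.Agent.H447.Gen.Final
import Pool.Agent.H447.Clo.CharDefs

set_option autoImplicit false
set_option linter.unusedSectionVars false

/-!
# From representations to modules over the group algebra
-/

namespace Pool.Agent.H447.Gen

open Module MonoidAlgebra Pool.Agent.H447.Clo

section mods

variable {G : Type} [Group G] {Z : Type} [AddCommGroup Z] [Module ℚ Z]
  [Module (MonoidAlgebra ℚ G) Z] [IsScalarTower ℚ (MonoidAlgebra ℚ G) Z]

/-- The element of the group algebra belonging to a group element. -/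
noncomputable abbrev el (g : G) : MonoidAlgebra ℚ G := MonoidAlgebra.single g 1

theorem el_mul (g h : G) : el (g * h) = el g * el h := by
  rw [el, el, el, MonoidAlgebra.single_mul_single, mul_one]

theorem el_one : el (1 : G) = 1 := rfl

/-- The idempotent `(1 + c) / 2`. -/
noncomputable def idem (c : G) : MonoidAlgebra ℚ G := (1 / 2 : ℚ) • (1 + el c)

theorem idem_smul (c : G) (z : Z) : idem c • z = (1 / 2 : ℚ) • (z + el c • z) := by
  rw [idem, smul_assoc, add_smul, one_smul]

theorem idem_mul (c : G) (hc : c * c = 1) : idem c * idem c = idem c := by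
  unfold idem
  rw [smul_mul_smul_comm, add_mul, one_mul, mul_add, mul_one, ← el_mul, hc, el_one]
  have h : (1 : MonoidAlgebra ℚ G) + el c + (el c + 1) = (2 : ℚ) • (1 + el c) := by
    rw [two_smul]
    abel
  rw [h, smul_smul]
  norm_num

theorem idem_mul_el (c : G) (hc : c * c = 1) : idem c * el c = idem c := by
  unfold idem
  rw [smul_mul_assoc, add_mul, one_mul, ← el_mul, hc, el_one, add_comm]

theorem idem_fixed {c : G} {z : Z} : idem c • z = z ↔ el c • z = z := by
  rw [idem_smul]
  constructor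
  · intro h
    have h1 : (2 : ℚ) • ((1 / 2 : ℚ) • (z + el c • z)) = (2 : ℚ) • z := by rw [h]
    rw [smul_smul, two_smul] at h1
    norm_num at h1
    exact h1
  · intro h
    rw [h, ← two_smul ℚ z, smul_smul]
    norm_num

/-- The representation on a submodule. -/
noncomputable def sr (S : Submodule (MonoidAlgebra ℚ G) Z) : Representation ℚ G S :=
  Representation.ofModule' S

theorem sr_apply (S : Submodule (MonoidAlgebra ℚ G) Z) (g : G) (v : S) :
    sr S g v = el g • v := rfl

theorem sr_asAlgebraHom (S : Submodule (MonoidAlgebra ℚ G) Z) (a : MonoidAlgebra ℚ G) (v : S) :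
    (sr S).asAlgebraHom a v = a • v := by
  have h : (sr S).asAlgebraHom = Algebra.lsmul ℚ ℚ S := by
    unfold sr Representation.ofModule' Representation.asAlgebraHom
    exact (MonoidAlgebra.lift ℚ (S →ₗ[ℚ] S) G).apply_symm_apply _
  rw [h]
  rfl

theorem sr_irreducible {S : Submodule (MonoidAlgebra ℚ G) Z}
    (hS : IsSimpleModule (MonoidAlgebra ℚ G) S) : (sr S).IsIrreducible := by
  rw [Representation.irreducible_iff_isSimpleModule_asModule]
  let e : (sr S).asModule ≃ₗ[MonoidAlgebra ℚ G] S :=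
    { toFun := fun x => (sr S).asModuleEquiv x
      invFun := fun x => (sr S).asModuleEquiv.symm x
      left_inv := fun x => rfl
      right_inv := fun x => rfl
      map_add' := fun x y => rfl
      map_smul' := fun a x => by
        rw [Representation.asModuleEquiv_map_smul, sr_asAlgebraHom]
        rfl }
  exact IsSimpleModule.congr e

/-- A map which commutes with the group is a module map. -/
noncomputable def ofComm {S T : Type} [AddCommGroup S] [Module ℚ S] [Module (MonoidAlgebra ℚ G) S]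
    [IsScalarTower ℚ (MonoidAlgebra ℚ G) S] [AddCommGroup T] [Module ℚ T]
    [Module (MonoidAlgebra ℚ G) T] [IsScalarTower ℚ (MonoidAlgebra ℚ G) T] (f : S →ₗ[ℚ] T)
    (h : ∀ (g : G) (v : S), f (el g • v) = el g • f v) : S →ₗ[MonoidAlgebra ℚ G] T :=
  MonoidAlgebra.equivariantOfLinearOfComm f h

theorem ofComm_apply {S T : Type} [AddCommGroup S] [Module ℚ S] [Module (MonoidAlgebra ℚ G) S]
    [IsScalarTower ℚ (MonoidAlgebra ℚ G) S] [AddCommGroup T] [Module ℚ T]
    [Module (MonoidAlgebra ℚ G) T] [IsScalarTower ℚ (MonoidAlgebra ℚ G) T] (f : S →ₗ[ℚ] T)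
    (h : ∀ (g : G) (v : S), f (el g • v) = el g • f v) (v : S) : ofComm f h v = f v := rfl

end mods

section asmod

variable {G : Type} [Group G] {V : Type} [AddCommGroup V] [Module ℚ V]

/-- The module of a representation. -/
def AM (_ρ : Representation ℚ G V) : Type := V

variable (ρ : Representation ℚ G V)

instance : AddCommGroup (AM ρ) := inferInstanceAs (AddCommGroup V)

instance : Module ℚ (AM ρ) := inferInstanceAs (Module ℚ V)

noncomputable instance : Module (MonoidAlgebra ℚ G) (AM ρ) :=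
  Module.compHom V (ρ.asAlgebraHom).toRingHom

/-- the identity -/
def toAM : V ≃ₗ[ℚ] AM ρ := LinearEquiv.refl ℚ V

theorem smul_AM (a : MonoidAlgebra ℚ G) (v : V) : a • toAM ρ v = toAM ρ (ρ.asAlgebraHom a v) := rfl

theorem el_smul_AM (g : G) (v : V) : el g • toAM ρ v = toAM ρ (ρ g v) := by
  rw [smul_AM, Representation.asAlgebraHom_single_one]

instance : IsScalarTower ℚ (MonoidAlgebra ℚ G) (AM ρ) := by
  refine ⟨fun r a v => ?_⟩
  obtain ⟨v, rfl⟩ := (toAM ρ).surjective v
  rw [smul_AM, smul_AM, map_smul, LinearMap.smul_apply, map_smul]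

instance [FiniteDimensional ℚ V] : FiniteDimensional ℚ (AM ρ) :=
  inferInstanceAs (FiniteDimensional ℚ V)

end asmod

section nmf

variable {K N : Type} [Field K] [NumberField K] [Field N] [NumberField N] [IsGalois ℚ N]

/-- The character module. -/
abbrev CM (K N : Type) [Field K] [NumberField K] [Field N] [NumberField N] : Type :=
  AM (charRep K N)

instance : IsSemisimpleModule (MonoidAlgebra ℚ (N ≃ₐ[ℚ] N)) (CM K N) := by
  have : NeZero (Nat.card (N ≃ₐ[ℚ] N) : ℚ) := ⟨by exact_mod_cast Nat.card_pos.ne'⟩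
  infer_instance

/-- A power of a submodule inside the character module. -/
theorem hasPower_of_inj {m : ℕ} (S : Submodule (MonoidAlgebra ℚ (N ≃ₐ[ℚ] N)) (CM K N))
    (j : (Fin m → S) →ₗ[MonoidAlgebra ℚ (N ≃ₐ[ℚ] N)] CM K N) (hj : Function.Injective j) :
    HasPower K N m (V := S) (sr S) := by
  obtain ⟨h, hh⟩ := IsSemisimpleModule.extension_property j hj LinearMap.id
  refine ⟨(h.restrictScalars ℚ) ∘ₗ (toAM (charRep K N)).toLinearMap, ?_, ?_⟩
  · intro y
    refine ⟨(toAM (charRep K N)).symm (j y), ?_⟩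
    show h (j y) = y
    exact LinearMap.congr_fun hh y
  · intro g x i
    show h (toAM (charRep K N) (charRep K N g x)) i =
      el g • h (toAM (charRep K N) x) i
    rw [← el_smul_AM, map_smul]
    rfl

theorem exists_fixed {c : N ≃ₐ[ℚ] N} {S : Submodule (MonoidAlgebra ℚ (N ≃ₐ[ℚ] N)) (CM K N)}
    (hpos : 0 < wt (idem c) S) : ∃ v, v ≠ 0 ∧ sr S c v = v := by
  have h1 : Nontrivial (ePart (idem c) S) := by
    by_contra hcon
    rw [not_nontrivial_iff_subsingleton] at hcon
    have h2 : finrank ℚ (ePart (idem c) S) = 0 := Module.finrank_zero_of_subsingleton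
    unfold wt at hpos
    omega
  obtain ⟨v, hv⟩ := exists_ne (0 : ePart (idem c) S)
  refine ⟨⟨v.1, v.2.1⟩, ?_, ?_⟩
  · intro h
    apply hv
    apply Subtype.ext
    have h3 := congrArg Subtype.val h
    exact h3
  · rw [sr_apply]
    apply Subtype.ext
    exact idem_fixed.mp v.2.2

theorem disjoint_simple {A Z : Type} [Ring A] [AddCommGroup Z] [Module A Z] {S T : Submodule A Z}
    (hS : IsSimpleModule A S) (hT : IsSimpleModule A T) (hST : S ≠ T) : Disjoint S T := by
  rw [disjoint_iff]
  by_contra h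
  have h1 := ((isSimpleModule_iff_isAtom.mp hS).le_iff_eq h).mp inf_le_left
  have h2 := ((isSimpleModule_iff_isAtom.mp hT).le_iff_eq h).mp inf_le_right
  exact hST (h1.symm.trans h2)

theorem hasPower_two {S T : Submodule (MonoidAlgebra ℚ (N ≃ₐ[ℚ] N)) (CM K N)}
    (hST : Disjoint S T) (f : S ≃ₗ[MonoidAlgebra ℚ (N ≃ₐ[ℚ] N)] T) : HasPower K N 2 (V := S) (sr S) := by
  refine hasPower_of_inj S (S.subtype ∘ₗ LinearMap.proj 0 +
    T.subtype ∘ₗ f.toLinearMap ∘ₗ LinearMap.proj 1) ?_
  rw [← LinearMap.ker_eq_bot, LinearMap.ker_eq_bot']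
  intro y hy
  have hy' : ((y 0 : S) : CM K N) + ((f (y 1) : T) : CM K N) = 0 := hy
  have h1 : ((y 0 : S) : CM K N) = -((f (y 1) : T) : CM K N) := eq_neg_of_add_eq_zero_left hy'
  have h2 : ((y 0 : S) : CM K N) = 0 := by
    apply Submodule.disjoint_def.mp hST _ (y 0).2
    rw [h1]
    exact T.neg_mem (f (y 1)).2
  have h3 : ((f (y 1) : T) : CM K N) = 0 := by rwa [h2, zero_add] at hy'
  have h4 : y 1 = 0 := by
    apply f.injective
    rw [map_zero]
    exact Subtype.ext h3
  funext i
  fin_cases i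
  · exact Subtype.ext h2
  · exact h4

theorem hasPower_three {S T R : Submodule (MonoidAlgebra ℚ (N ≃ₐ[ℚ] N)) (CM K N)}
    (hST : Disjoint S T) (f : S ≃ₗ[MonoidAlgebra ℚ (N ≃ₐ[ℚ] N)] T)
    (g : S ≃ₗ[MonoidAlgebra ℚ (N ≃ₐ[ℚ] N)] R) (hR : Disjoint R (S ⊔ T)) :
    HasPower K N 3 (V := S) (sr S) := by
  refine hasPower_of_inj S (S.subtype ∘ₗ LinearMap.proj 0 +
    T.subtype ∘ₗ f.toLinearMap ∘ₗ LinearMap.proj 1 +
    R.subtype ∘ₗ g.toLinearMap ∘ₗ LinearMap.proj 2) ?_
  rw [← LinearMap.ker_eq_bot, LinearMap.ker_eq_bot']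
  intro y hy
  have hy' : ((y 0 : S) : CM K N) + ((f (y 1) : T) : CM K N) + ((g (y 2) : R) : CM K N) = 0 := hy
  have h0 : ((g (y 2) : R) : CM K N) = 0 := by
    apply Submodule.disjoint_def.mp hR _ (g (y 2)).2
    have h1 := eq_neg_of_add_eq_zero_right hy'
    rw [h1]
    exact Submodule.neg_mem _ (Submodule.add_mem_sup (y 0).2 (f (y 1)).2)
  rw [h0, add_zero] at hy'
  have h1 : ((y 0 : S) : CM K N) = -((f (y 1) : T) : CM K N) := eq_neg_of_add_eq_zero_left hy'
  have h2 : ((y 0 : S) : CM K N) = 0 := by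
    apply Submodule.disjoint_def.mp hST _ (y 0).2
    rw [h1]
    exact T.neg_mem (f (y 1)).2
  have h3 : ((f (y 1) : T) : CM K N) = 0 := by rwa [h2, zero_add] at hy'
  have h4 : y 1 = 0 := by
    apply f.injective
    rw [map_zero]
    exact Subtype.ext h3
  have h5 : y 2 = 0 := by
    apply g.injective
    rw [map_zero]
    exact Subtype.ext h0
  funext i
  fin_cases i
  · exact Subtype.ext h2
  · exact h4
  · exact h5

/-- From the representations to the modules. -/
theorem nearMF {c : N ≃ₐ[ℚ] N} (h : NearlyMultiplicityFree K N c) :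
    NearMF (idem c) (CM K N) := by
  refine ⟨?_, ?_, ?_⟩
  · rintro S T hS hT hST ⟨f⟩ hpos α
    obtain ⟨r, hr⟩ := h.scalar S (sr S) (sr_irreducible hS) (exists_fixed hpos)
      (hasPower_two (disjoint_simple hS hT hST) f) (α.restrictScalars ℚ) (fun g v => by
        rw [sr_apply, sr_apply]
        exact α.map_smul _ _)
    exact ⟨r, hr⟩
  · rintro S T S₃ hS hT hST ⟨f⟩ ⟨g⟩ hpos
    by_contra hcon
    apply h.no_three S (sr S) (sr_irreducible hS) (exists_fixed hpos)
    have hS₃ : IsSimpleModule (MonoidAlgebra ℚ (N ≃ₐ[ℚ] N)) S₃ :=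
      IsSimpleModule.congr (N := S) g.symm
    refine hasPower_three (disjoint_simple hS hT hST) f g ?_
    rw [disjoint_iff]
    by_contra hne
    have h1 := ((isSimpleModule_iff_isAtom.mp hS₃).le_iff_eq hne).mp inf_le_left
    exact hcon (h1 ▸ inf_le_right)
  · rintro S T S' T' hS hT hST ⟨f⟩ hS' hT' hST' ⟨f'⟩ hpos hpos'
    obtain ⟨e, he⟩ := h.unique S S' (sr S) (sr S') (sr_irreducible hS) (sr_irreducible hS')
      (exists_fixed hpos) (exists_fixed hpos') (hasPower_two (disjoint_simple hS hT hST) f)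
      (hasPower_two (disjoint_simple hS' hT' hST') f')
    refine ⟨LinearEquiv.ofBijective (ofComm (S := S) (T := S') e.toLinearMap he)
      ⟨fun a b hab => ?_, fun b => ?_⟩⟩
    · exact e.injective hab
    · obtain ⟨a, ha⟩ := e.surjective b
      exact ⟨a, ha⟩

end nmf

end Pool.Agent.H447.Gen
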