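import Mathlib

set_option autoImplicit false

/-!
# Finitely generated groups of rational points of `R_{K/ℚ}(G_m)` and structural nonsingularity

Let `K` be a number field, `N` a finite Galois extension of `ℚ` in which `K` embeds, `G` its Galois
group and `A = R_{K/ℚ}(G_m)`. The characters of `A` are the `∏_σ σ ^ (χ σ)`, where `σ` runs through
the embeddings of `K` in `N` and `χ` is integral valued. The algebraic subgroups `B` of `A` which
are defined over `ℚ` are the groups `χ = 1` for all `χ ∈ Ψ`, where `Ψ` is a group of characters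
which is stable under `G`.
-/

namespace Pool.Agent.H447.Clo

section sdefs

variable (K N : Type) [Field K] [NumberField K] [Field N] [NumberField N]

/-- The Galois group. -/
abbrev Gal : Type := N ≃ₐ[ℚ] N

/-- The embeddings of `K` in `N`. -/
abbrev Hm : Type := K →ₐ[ℚ] N

variable {K N}

/-- The embedding `g ∘ σ`. -/
def mv (g : Gal N) (σ : Hm K N) : Hm K N := (g : N →ₐ[ℚ] N).comp σ

/-- The value at `x ∈ Kˣ = A(ℚ)` of the character `∏_σ σ ^ (χ σ)`. -/
noncomputable def chv (χ : Hm K N → ℤ) (x : Kˣ) : N := ∏ σ : Hm K N, σ x ^ χ σ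

/-- A group of characters which is stable under the Galois group. -/
def GalStable (Ψ : AddSubgroup (Hm K N → ℤ)) : Prop :=
  ∀ (g : Gal N) (χ : Hm K N → ℤ), χ ∈ Ψ → (fun σ => χ (mv g σ)) ∈ Ψ

/-- The group `B(ℚ)` of the rational points of the algebraic subgroup `B` of `A` given by `Ψ`.
(The elements `x` with `χ(x) = 1` for all `χ ∈ Ψ` form a group, so it is equal to the group which
they generate.) -/
def ratPts (Ψ : AddSubgroup (Hm K N → ℤ)) : Subgroup Kˣ :=
  Subgroup.closure {x | ∀ χ ∈ Ψ, chv χ x = 1}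

/-- The space of the rational cocharacters of the algebraic subgroup `B` given by `Ψ` which are
invariant under `c ∈ G`: the functions `f` on the set of the embeddings with `f (c σ) = f σ` and
`∑ χ(σ) f(σ) = 0` for all `χ ∈ Ψ`. (These functions form a space, so it is equal to their span.) -/
def cochar (c : Gal N) (Ψ : AddSubgroup (Hm K N → ℤ)) : Submodule ℚ (Hm K N → ℚ) :=
  Submodule.span ℚ {f | (∀ σ, f (mv c σ) = f σ) ∧ ∀ χ ∈ Ψ, ∑ σ, χ σ * f σ = 0}

/-- The rank of a commutative group. -/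
noncomputable def rkG (H : Type) [CommGroup H] : ℕ := Module.finrank ℤ (Additive H)

/-- A function on the nonzero elements of `N` which transforms products into sums. -/
def LogLike (φ : N → ℚ) : Prop := ∀ x y, x ≠ 0 → y ≠ 0 → φ (x * y) = φ x + φ y

variable (K N)

/-- The rank condition: for all algebraic subgroups `B` of `A` over `ℚ` the rank of `L ∩ B(ℚ)` is
at most the dimension of the space of the `c`-invariant rational cocharacters of `B`. For `c = 1`
this dimension is the dimension of `B`; if `c` is a complex conjugation it is the dimension of the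
quotient of `B(ℝ)` by its maximal compact subgroup. -/
def RankCondition (c : Gal N) (L : Subgroup Kˣ) : Prop :=
  ∀ Ψ : AddSubgroup (Hm K N → ℤ), GalStable Ψ →
    rkG ↥(L ⊓ ratPts Ψ) ≤ Module.finrank ℚ (cochar c Ψ)

/-- Structural nonsingularity: there is a homomorphism `φ` from the multiplicative group of `N` to
`ℚ`, invariant under `c`, such that the vectors `(φ (σ x))_σ` of the elements of infinite order of
`L` are not zero. In other words the matrix of these vectors, for a basis of `L` modulo torsion, has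
rank equal to `rank L`; its largest possible rank for all `φ` is the structural rank of the matrix
of the true logarithms. -/
def Nonsing (c : Gal N) (L : Subgroup Kˣ) : Prop :=
  ∃ φ : N → ℚ, LogLike φ ∧ (∀ y, φ (c y) = φ y) ∧
    ∀ x ∈ L, (∀ σ : Hm K N, φ (σ x) = 0) → IsOfFinOrder x

end sdefs

section api

variable {K N : Type} [Field K] [NumberField K] [Field N] [NumberField N]

/-- The value at `x ∈ Kˣ = A(ℚ)` of the character `∏_σ σ ^ (χ σ)`. -/
noncomputable def charVal (K N : Type) [Field K] [NumberField K] [Field N] [NumberField N]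
    (χ : (K →ₐ[ℚ] N) → ℤ) (x : Kˣ) : Nˣ :=
  ∏ σ : K →ₐ[ℚ] N, (Units.map (σ : K →* N) x) ^ (χ σ)

theorem charVal_mul (χ : (K →ₐ[ℚ] N) → ℤ) (x y : Kˣ) :
    charVal K N χ (x * y) = charVal K N χ x * charVal K N χ y := by
  unfold charVal
  rw [← Finset.prod_mul_distrib]
  refine Finset.prod_congr rfl fun σ _ => ?_
  rw [map_mul, mul_zpow]

theorem coe_charVal (χ : Hm K N → ℤ) (x : Kˣ) : ((charVal K N χ x : Nˣ) : N) = chv χ x := by
  unfold charVal chv
  rw [Units.coe_prod]
  refine Finset.prod_congr rfl fun σ _ => ?_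
  rw [Units.val_zpow_eq_zpow_val]
  rfl

/-- The group `B(ℚ)`. -/
noncomputable def ratPts' (Ψ : AddSubgroup (Hm K N → ℤ)) : Subgroup Kˣ where
  carrier := {x | ∀ χ ∈ Ψ, charVal K N χ x = 1}
  mul_mem' := by
    intro x y hx hy χ hχ
    rw [charVal_mul, hx χ hχ, hy χ hχ, mul_one]
  one_mem' := by
    intro χ _
    have h := charVal_mul (N := N) χ 1 1
    rw [mul_one] at h
    exact left_eq_mul.mp h
  inv_mem' := by
    intro x hx χ hχ
    have h := charVal_mul (N := N) χ x x⁻¹
    rw [mul_inv_cancel, hx χ hχ, one_mul] at h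
    rw [← h]
    have h1 := charVal_mul (N := N) χ 1 1
    rw [mul_one] at h1
    exact left_eq_mul.mp h1

theorem ratPts_eq (Ψ : AddSubgroup (Hm K N → ℤ)) : ratPts Ψ = ratPts' Ψ := by
  have h : {x : Kˣ | ∀ χ ∈ Ψ, chv χ x = 1} = (ratPts' Ψ : Set Kˣ) := by
    ext x
    show (∀ χ ∈ Ψ, chv χ x = 1) ↔ ∀ χ ∈ Ψ, charVal K N χ x = 1
    simp only [← coe_charVal, Units.val_eq_one]
  unfold ratPts
  rw [h, Subgroup.closure_eq]

theorem mem_ratPts {Ψ : AddSubgroup (Hm K N → ℤ)} {x : Kˣ} :
    x ∈ ratPts Ψ ↔ ∀ χ ∈ Ψ, charVal K N χ x = 1 := by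
  rw [ratPts_eq]
  rfl

/-- The space of the invariant cocharacters. -/
def cochar' (c : N ≃ₐ[ℚ] N) (Ψ : AddSubgroup ((K →ₐ[ℚ] N) → ℤ)) :
    Submodule ℚ ((K →ₐ[ℚ] N) → ℚ) where
  carrier := {f | (∀ σ, f ((c : N →ₐ[ℚ] N).comp σ) = f σ) ∧
    ∀ χ ∈ Ψ, ∑ σ, (χ σ : ℚ) * f σ = 0}
  add_mem' := by
    rintro a b ⟨h1, h2⟩ ⟨h3, h4⟩
    refine ⟨fun σ => by rw [Pi.add_apply, Pi.add_apply, h1, h3], fun χ hχ => ?_⟩
    simp only [Pi.add_apply, mul_add, Finset.sum_add_distrib, h2 χ hχ, h4 χ hχ, add_zero]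
  zero_mem' := ⟨fun σ => rfl, fun χ _ => by simp⟩
  smul_mem' := by
    rintro r a ⟨h1, h2⟩
    refine ⟨fun σ => by rw [Pi.smul_apply, Pi.smul_apply, h1], fun χ hχ => ?_⟩
    have := h2 χ hχ
    rw [← mul_zero r, ← this, Finset.mul_sum]
    refine Finset.sum_congr rfl fun σ _ => ?_
    rw [Pi.smul_apply, smul_eq_mul]
    ring

theorem cochar_eq (c : N ≃ₐ[ℚ] N) (Ψ : AddSubgroup ((K →ₐ[ℚ] N) → ℤ)) :
    cochar c Ψ = cochar' c Ψ := Submodule.span_eq (cochar' c Ψ)

theorem finrank_cochar (c : N ≃ₐ[ℚ] N) (Ψ : AddSubgroup ((K →ₐ[ℚ] N) → ℤ)) :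
    Module.finrank ℚ (cochar c Ψ) = Module.finrank ℚ (cochar' c Ψ) := by
  rw [cochar_eq]

/-- Structural nonsingularity in terms of bundled homomorphisms. -/
theorem nonsing_iff {c : N ≃ₐ[ℚ] N} {L : Subgroup Kˣ} : Nonsing K N c L ↔
    ∃ φ : Additive Nˣ →+ ℚ,
      (∀ y : Nˣ, φ (Additive.ofMul (Units.map ((c : N →ₐ[ℚ] N) : N →* N) y)) =
        φ (Additive.ofMul y)) ∧
      ∀ x ∈ L, (∀ σ : K →ₐ[ℚ] N, φ (Additive.ofMul (Units.map (σ : K →* N) x)) = 0) →
        IsOfFinOrder x := by
  classical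
  constructor
  · rintro ⟨φ, h1, h2, h3⟩
    have h0 : φ 1 = 0 := by
      have := h1 1 1 one_ne_zero one_ne_zero
      rw [mul_one] at this
      linarith
    exact ⟨{ toFun := fun y => φ ((y.toMul : Nˣ) : N)
             map_zero' := h0
             map_add' := fun y z => h1 ((y.toMul : Nˣ) : N) ((z.toMul : Nˣ) : N)
              (y.toMul).ne_zero (z.toMul).ne_zero },
      fun y => h2 (y : N), fun x hx h => h3 x hx h⟩
  · rintro ⟨φ, h1, h2⟩
    refine ⟨fun y => if h : y = 0 then 0 else φ (Additive.ofMul (Units.mk0 y h)), ?_, ?_, ?_⟩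
    · intro x y hx hy
      simp only [dif_neg hx, dif_neg hy, dif_neg (mul_ne_zero hx hy)]
      rw [← map_add, ← ofMul_mul]
      congr 2
      exact Units.ext rfl
    · intro y
      by_cases hy : y = 0
      · simp only [hy, map_zero]
      · have hcy : c y ≠ 0 := by
          intro h
          apply hy
          apply c.injective
          rw [h, map_zero]
        simp only [dif_neg hy, dif_neg hcy]
        have h3 := h1 (Units.mk0 y hy)
        have h4 : Units.map ((c : N →ₐ[ℚ] N) : N →* N) (Units.mk0 y hy) =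
            Units.mk0 (c y) hcy := Units.ext rfl
        rwa [h4] at h3
    · intro x hx h
      apply h2 x hx
      intro σ
      have h3 := h σ
      have h4 : σ x ≠ 0 := by
        intro h5
        exact x.ne_zero (σ.toRingHom.injective (h5.trans (map_zero σ).symm))
      simp only [dif_neg h4] at h3
      rw [← h3]
      congr 2
      exact Units.ext rfl

end api

end Pool.Agent.H447.Clo
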