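import Mathlib
import Pool.Agent.H447.Gen.SDefs
import Pool.Agent.H447.Clo.Class
import Pool.Agent.H447.Clo.Group

set_option autoImplicit false
set_option linter.unusedSectionVars false

/-!
# The necessity: singular groups which satisfy the rank condition
-/

namespace Pool.Agent.H447.Clo

open Module

theorem prod_zpow_sum'' {α G : Type} [CommGroup G] (s : Finset α) (u : G) (f : α → ℤ) :
    ∏ x ∈ s, u ^ f x = u ^ ∑ x ∈ s, f x := by
  classical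
  induction s using Finset.induction_on with
  | empty => simp
  | insert a s ha ih => rw [Finset.prod_insert ha, Finset.sum_insert ha, zpow_add, ih]

namespace Setup

variable {K N : Type} [Field K] [NumberField K] [Field N] [NumberField N] [IsGalois ℚ N]
  (D : Setup K N) {x : D.I → Nˣ} (hx : FreeConj x)

/-- For each embedding of `K` an element of the Galois group. -/
noncomputable def gn (σ : K →ₐ[ℚ] N) : N ≃ₐ[ℚ] N := (exists_gal' D.ι σ).choose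

theorem gn_spec (σ : K →ₐ[ℚ] N) (y : K) : σ y = D.gn σ (D.ι y) :=
  (exists_gal' D.ι σ).choose_spec y

theorem gn_surj (g : N ≃ₐ[ℚ] N) : ∃ σ : K →ₐ[ℚ] N, ∀ y : K, ((D.gn σ)⁻¹ * g) (D.ι y) = D.ι y := by
  refine ⟨(g : N →ₐ[ℚ] N).comp D.ι, fun y => ?_⟩
  have h1 := D.gn_spec ((g : N →ₐ[ℚ] N).comp D.ι) y
  have h2 : g (D.ι y) = D.gn ((g : N →ₐ[ℚ] N).comp D.ι) (D.ι y) := h1
  rw [AlgEquiv.mul_apply, h2, ← AlgEquiv.mul_apply, inv_mul_cancel, AlgEquiv.one_apply]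

theorem gn_comp (c : N ≃ₐ[ℚ] N) (σ : K →ₐ[ℚ] N) (y : K) :
    ((c * D.gn σ)⁻¹ * D.gn ((c : N →ₐ[ℚ] N).comp σ)) (D.ι y) = D.ι y := by
  have h1 := D.gn_spec ((c : N →ₐ[ℚ] N).comp σ) y
  have h2 : D.gn ((c : N →ₐ[ℚ] N).comp σ) (D.ι y) = (c * D.gn σ) (D.ι y) := by
    rw [← h1]
    show c (σ y) = c (D.gn σ (D.ι y))
    rw [← D.gn_spec σ]
  rw [AlgEquiv.mul_apply, h2, ← AlgEquiv.mul_apply, inv_mul_cancel, AlgEquiv.one_apply]

/-- The conjugates of the elements. -/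
theorem map_el (σ : K →ₐ[ℚ] N) (v : Fin D.M → ℤ) :
    Units.map (σ : K →* N) (D.el x v) = um (D.gn σ) (D.A x v) := by
  ext
  show σ ((D.el x v : Kˣ) : K) = D.gn σ ((D.A x v : Nˣ) : N)
  rw [D.gn_spec σ, ← D.el_spec x v]
  rfl

theorem prod_um_A' {α : Type} [Fintype α] (γ : α → (N ≃ₐ[ℚ] N)) (χ : α → ℤ)
    (v : Fin D.M → ℤ) :
    ∏ a, um (γ a) (D.A x v) ^ χ a =
      ∏ i, ∏ g : N ≃ₐ[ℚ] N, um g (x i) ^ (∑ a, χ a * D.ez v i ((γ a)⁻¹ * g)) := by
  have h1 : ∀ a, um (γ a) (D.A x v) ^ χ a =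
      ∏ i, ∏ g : N ≃ₐ[ℚ] N, um g (x i) ^ (χ a * D.ez v i ((γ a)⁻¹ * g)) := by
    intro a
    rw [um_A, ← Finset.prod_zpow]
    refine Finset.prod_congr rfl fun i _ => ?_
    rw [← Finset.prod_zpow]
    refine Finset.prod_congr rfl fun g _ => ?_
    rw [← zpow_mul, mul_comm]
  simp only [h1]
  rw [Finset.prod_comm]
  refine Finset.prod_congr rfl fun i _ => ?_
  rw [Finset.prod_comm]
  refine Finset.prod_congr rfl fun g _ => ?_
  exact prod_zpow_sum'' _ _ _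

theorem charVal_el (χ : (K →ₐ[ℚ] N) → ℤ) (v : Fin D.M → ℤ) :
    charVal K N χ (D.el x v) =
        ∏ i, ∏ g : N ≃ₐ[ℚ] N, um g (x i) ^ (∑ σ, χ σ * D.ez v i ((D.gn σ)⁻¹ * g)) := by
  rw [← prod_um_A']
  unfold charVal
  refine Finset.prod_congr rfl fun σ _ => ?_
  rw [map_el]

/-- The rational function on the group belonging to a character. -/
noncomputable def yn (χ : (K →ₐ[ℚ] N) → ℤ) : (N ≃ₐ[ℚ] N) → ℚ := by
  classical
  exact fun g => ∑ σ with D.gn σ = g, (χ σ : ℚ)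

theorem sum_yn (χ : (K →ₐ[ℚ] N) → ℤ) (f : (N ≃ₐ[ℚ] N) → ℚ) :
    ∑ g, D.yn χ g * f g = ∑ σ, (χ σ : ℚ) * f (D.gn σ) := by
  classical
  rw [← Finset.sum_fiberwise (s := (Finset.univ : Finset (K →ₐ[ℚ] N))) (g := fun σ => D.gn σ)]
  refine Finset.sum_congr rfl fun g _ => ?_
  unfold yn
  rw [Finset.sum_mul]
  refine Finset.sum_congr rfl fun σ hσ => ?_
  rw [(Finset.mem_filter.mp hσ).2]

include hx in
theorem mem_KY' (Ψ : AddSubgroup ((K →ₐ[ℚ] N) → ℤ)) (v : Fin D.M → ℤ)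
    (h : D.el x v ∈ ratPts Ψ) :
    (fun k => (v k : ℚ)) ∈ D.KY {y | ∃ χ ∈ Ψ, y = D.yn χ} := by
  rintro _ ⟨χ, hχ, rfl⟩ i g
  have h1 : charVal K N χ (D.el x v) = 1 := mem_ratPts.mp h χ hχ
  rw [charVal_el] at h1
  have h4 : ∀ g, ∑ σ, χ σ * D.ez v i ((D.gn σ)⁻¹ * g) = 0 := fun g =>
    congrFun (congrFun (hx (fun i g => ∑ σ, χ σ * D.ez v i ((D.gn σ)⁻¹ * g)) h1) i) g
  rw [D.sum_yn χ (fun h => D.e (fun k => (v k : ℚ)) i (h⁻¹ * g) +
    D.e (fun k => (v k : ℚ)) i (h⁻¹ * (D.c * g)))]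
  have h5 : ∀ σ : K →ₐ[ℚ] N, (χ σ : ℚ) * (D.e (fun k => (v k : ℚ)) i ((D.gn σ)⁻¹ * g) +
      D.e (fun k => (v k : ℚ)) i ((D.gn σ)⁻¹ * (D.c * g))) =
      (((χ σ * D.ez v i ((D.gn σ)⁻¹ * g) : ℤ)) : ℚ) +
      (((χ σ * D.ez v i ((D.gn σ)⁻¹ * (D.c * g)) : ℤ)) : ℚ) := by
    intro σ
    rw [e_cast, e_cast]
    push_cast
    ring
  simp only [h5]
  rw [Finset.sum_add_distrib, ← Int.cast_sum, ← Int.cast_sum, h4, h4, Int.cast_zero, add_zero]

theorem UY_le' (Ψ : AddSubgroup ((K →ₐ[ℚ] N) → ℤ)) :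
    Module.finrank ℚ (D.UY {y | ∃ χ ∈ Ψ, y = D.yn χ}) ≤
      Module.finrank ℚ (cochar' D.c Ψ) := by
  let f : D.UY {y | ∃ χ ∈ Ψ, y = D.yn χ} →ₗ[ℚ] cochar' D.c Ψ :=
    { toFun := fun u => ⟨fun σ => u.1 (D.gn σ), by
        refine ⟨fun σ => ?_, fun χ hχ => ?_⟩
        · have h1 := u.2.2.1 (D.c * D.gn σ) ((D.c * D.gn σ)⁻¹ *
            D.gn ((D.c : N →ₐ[ℚ] N).comp σ)) (D.gn_comp D.c σ)
          rw [mul_inv_cancel_left, u.2.1] at h1
          exact h1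
        · have h1 := u.2.2.2 (D.yn χ) ⟨χ, hχ, rfl⟩
          rw [D.sum_yn χ] at h1
          exact h1⟩
      map_add' := fun a b => rfl
      map_smul' := fun r a => rfl }
  refine LinearMap.finrank_le_finrank_of_injective (f := f) ?_
  rw [← LinearMap.ker_eq_bot, LinearMap.ker_eq_bot']
  intro u hu
  apply Subtype.ext
  funext g
  obtain ⟨σ, hσ⟩ := D.gn_surj g
  have h1 := u.2.2.1 (D.gn σ) ((D.gn σ)⁻¹ * g) hσ
  rw [mul_inv_cancel_left] at h1
  rw [h1]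
  exact congrFun (congrArg Subtype.val hu) σ

include hx in
theorem rankCondition (hS : D.Semi) : RankCondition K N D.c (D.L x) := by
  intro Ψ _
  have h1 := D.rank_inf_le hx (ratPts Ψ) (D.KY {y | ∃ χ ∈ Ψ, y = D.yn χ})
    (fun v hv => D.mem_KY' hx Ψ v hv)
  have h2 := hS {y | ∃ χ ∈ Ψ, y = D.yn χ}
  have h3 := D.UY_le' Ψ
  exact (h1.trans (h2.trans h3)).trans (finrank_cochar D.c Ψ).ge

include hx in
theorem not_nonsing (hS : D.Sing) : ¬ Nonsing K N D.c (D.L x) := by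
  rw [nonsing_iff]
  rintro ⟨φ, hφ, h⟩
  obtain ⟨v, hv, hrel⟩ := hS (fun i g => φ (Additive.ofMul (um g (x i)))) (by
    intro i g
    show φ (Additive.ofMul (um (D.c * g) (x i))) = _
    rw [um_mul]
    exact hφ _)
  -- clear denominators
  obtain ⟨d, hd, w, hw⟩ := exists_common_denom v
  have hw0 : w ≠ 0 := by
    intro h0
    apply hv
    funext k
    have h1 := hw k
    rw [h0, Pi.zero_apply, Int.cast_zero] at h1
    exact (mul_eq_zero.mp h1.symm).resolve_left (by exact_mod_cast hd)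
  have hez : ∀ i g, ((D.ez w i g : ℤ) : ℚ) = d * D.e v i g := by
    intro i g
    unfold ez e
    push_cast
    rw [Finset.mul_sum]
    refine Finset.sum_congr rfl fun k _ => ?_
    rw [hw k]
    ring
  have hfin := h (D.el x w) ⟨Multiplicative.ofAdd w, rfl⟩ (by
    intro σ
    show φ (Additive.ofMul (Units.map (σ : K →* N) (D.el x w))) = 0
    rw [map_el, um_A]
    have h1 : Additive.ofMul (∏ i, ∏ g : N ≃ₐ[ℚ] N, um g (x i) ^ D.ez w i ((D.gn σ)⁻¹ * g)) =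
        ∑ i, ∑ g : N ≃ₐ[ℚ] N, D.ez w i ((D.gn σ)⁻¹ * g) • Additive.ofMul (um g (x i)) := by
      rw [ofMul_prod]
      refine Finset.sum_congr rfl fun i _ => ?_
      rw [ofMul_prod]
      rfl
    rw [h1, map_sum]
    have h2 : ∀ i, φ (∑ g : N ≃ₐ[ℚ] N, D.ez w i ((D.gn σ)⁻¹ * g) • Additive.ofMul (um g (x i))) =
        d * ∑ g : N ≃ₐ[ℚ] N, D.e v i g * φ (Additive.ofMul (um (D.gn σ * g) (x i))) := by
      intro i
      rw [map_sum, Finset.mul_sum, ← Equiv.sum_comp (Equiv.mulLeft (D.gn σ))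
        (fun g => φ (D.ez w i ((D.gn σ)⁻¹ * g) • Additive.ofMul (um g (x i))))]
      refine Finset.sum_congr rfl fun g _ => ?_
      show φ (D.ez w i ((D.gn σ)⁻¹ * (D.gn σ * g)) • Additive.ofMul (um (D.gn σ * g) (x i))) = _
      rw [inv_mul_cancel_left, map_zsmul, zsmul_eq_mul, hez]
      ring
    simp only [h2]
    rw [← Finset.mul_sum, hrel, mul_zero])
  rw [isOfFinOrder_iff_pow_eq_one] at hfin
  obtain ⟨n, hn, h1⟩ := hfin
  apply hw0
  have h2 : D.Y x (Multiplicative.ofAdd w ^ n) = 1 := by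
    rw [map_pow]
    exact h1
  have h3 := D.Y_injective hx (h2.trans (map_one _).symm)
  have h4 : n • w = 0 := congrArg Multiplicative.toAdd h3
  exact (smul_eq_zero.mp h4).resolve_left hn.ne'

end Setup

variable {K N : Type} [Field K] [NumberField K] [Field N] [NumberField N] [IsGalois ℚ N]

/-- **The necessity.** -/
theorem nmf_of_sound (ι : K →ₐ[ℚ] N) {c : N ≃ₐ[ℚ] N} (hc : c * c = 1)
    (h : ∀ L : Subgroup Kˣ, L.FG → RankCondition K N c L → Nonsing K N c L) :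
    NearlyMultiplicityFree K N c := by
  refine nearly c hc ?_ ι
  rintro D rfl hS hS'
  obtain ⟨x, β, -, hx⟩ := exists_free (N := N) D.I (B := 1) one_ne_zero
  exact D.not_nonsing hx hS' (h (D.L x) (D.L_fg x) (D.rankCondition hx hS))

end Pool.Agent.H447.Clo
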