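import Mathlib
import Pool.Agent.H447.Clo.CharDefs
import Pool.Agent.H447.Gen.SDefs

set_option autoImplicit false

/-!
# Nearly multiplicity free character modules, in short form
-/

namespace Pool.Agent.H447.Clo

section ndefs

variable {K N : Type} [Field K] [NumberField K] [Field N] [NumberField N]

/-- The action of the Galois group on the rational character module of `R_{K/ℚ}(G_m)`, i.e. on the
functions on the set of the embeddings of `K` in `N`. -/
def act1 (g : Gal N) (f : Hm K N → ℚ) : Hm K N → ℚ := fun σ => f (mv g⁻¹ σ)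

/-- The linear map commutes with the group. -/
def Commutes {V : Type} [AddCommGroup V] [Module ℚ V] {W : Type} [AddCommGroup W] [Module ℚ W]
    (ρ : Representation ℚ (Gal N) V) (τ : Representation ℚ (Gal N) W) (f : V →ₗ[ℚ] W) : Prop :=
  ∀ g v, f (ρ g v) = τ g (f v)

variable (K)

/-- The `m`-th power of `ρ` is a quotient of the rational character module of `R_{K/ℚ}(G_m)`; for
irreducible `ρ` this means that `ρ` has multiplicity at least `m`. -/
def PowQuot (m : ℕ) {V : Type} [AddCommGroup V] [Module ℚ V]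
    (ρ : Representation ℚ (Gal N) V) : Prop :=
  ∃ f : (Hm K N → ℚ) →ₗ[ℚ] (Fin m → V), Function.Surjective f ∧
    ∀ g x j, f (act1 g x) j = ρ g (f x j)

/-- The irreducible representation `ρ` has multiplicity at least `m` in the rational character
module of `R_{K/ℚ}(G_m)` and has a nonzero vector fixed by `c`. -/
def Occurs (m : ℕ) (c : Gal N) {V : Type} [AddCommGroup V] [Module ℚ V]
    (ρ : Representation ℚ (Gal N) V) : Prop :=
  ρ.IsIrreducible ∧ (∃ v, v ≠ 0 ∧ ρ c v = v) ∧ PowQuot K m ρ

/-- The rational character module of `R_{K/ℚ}(G_m)` is nearly multiplicity free with respect to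
`c`: for irreducible representations with nonzero vectors fixed by `c`, the multiplicity is at most
two, those of multiplicity two have only scalar endomorphisms and are isomorphic. (For `c = 1` these
are all constituents.) -/
structure NearlyMF (c : Gal N) : Prop where
  no_three : ∀ (V : Type) [AddCommGroup V] [Module ℚ V] (ρ : Representation ℚ (Gal N) V),
    ¬ Occurs K 3 c ρ
  scalar : ∀ (V : Type) [AddCommGroup V] [Module ℚ V] (ρ : Representation ℚ (Gal N) V),
    Occurs K 2 c ρ → ∀ α : V →ₗ[ℚ] V, Commutes ρ ρ α → ∃ r : ℚ, ∀ v, α v = r • v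
  unique : ∀ (V W : Type) [AddCommGroup V] [Module ℚ V] [AddCommGroup W] [Module ℚ W]
    (ρ : Representation ℚ (Gal N) V) (τ : Representation ℚ (Gal N) W),
    Occurs K 2 c ρ → Occurs K 2 c τ → ∃ e : V ≃ₗ[ℚ] W, Commutes ρ τ e

theorem powQuot_iff (m : ℕ) {V : Type} [AddCommGroup V] [Module ℚ V]
    (ρ : Representation ℚ (Gal N) V) : PowQuot K m ρ ↔ HasPower K N m ρ := Iff.rfl

theorem nearlyMF_iff (c : Gal N) : NearlyMF K c ↔ NearlyMultiplicityFree K N c := by
  constructor
  · intro h
    refine ⟨?_, ?_, ?_⟩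
    · intro V _ _ ρ h1 h2 h3
      exact h.no_three V ρ ⟨h1, h2, h3⟩
    · intro V _ _ ρ h1 h2 h3 α hα
      exact h.scalar V ρ ⟨h1, h2, h3⟩ α hα
    · intro V V' _ _ _ _ ρ ρ' h1 h1' h2 h2' h3 h3'
      exact h.unique V V' ρ ρ' ⟨h1, h2, h3⟩ ⟨h1', h2', h3'⟩
  · intro h
    refine ⟨?_, ?_, ?_⟩
    · rintro V _ _ ρ ⟨h1, h2, h3⟩
      exact h.no_three V ρ h1 h2 h3
    · rintro V _ _ ρ ⟨h1, h2, h3⟩ α hα
      exact h.scalar V ρ h1 h2 h3 α hα
    · rintro V W _ _ _ _ ρ τ ⟨h1, h2, h3⟩ ⟨h1', h2', h3'⟩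
      exact h.unique V W ρ τ h1 h1' h2 h2' h3 h3'

end ndefs

end Pool.Agent.H447.Clo
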