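import Mathlib
import Pool.Agent.H447.Gen.NMF
import Pool.Agent.H447.Gen.SDefs
import Pool.Agent.H447.Clo.Indep
import Pool.Graph.R_seed8.H440R3.Fill

set_option autoImplicit false
set_option linter.unusedSectionVars false

/-!
# The homomorphisms belonging to the elements of `Kˣ`
-/

namespace Pool.Agent.H447.Gen

open Module MonoidAlgebra Pool.Agent.H447.Clo TensorProduct

section W

variable {N : Type} [Field N] [NumberField N]

/-- The action on the additive version of `Nˣ`. -/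
noncomputable def actA (g : N ≃ₐ[ℚ] N) : Additive Nˣ →ₗ[ℤ] Additive Nˣ :=
  (MonoidHom.toAdditive (um g)).toIntLinearMap

theorem actA_apply (g : N ≃ₐ[ℚ] N) (y : Nˣ) :
    actA g (Additive.ofMul y) = Additive.ofMul (um g y) := rfl

/-- The Galois action on `ℚ ⊗ Nˣ`. -/
noncomputable def repW (N : Type) [Field N] [NumberField N] :
    Representation ℚ (N ≃ₐ[ℚ] N) (ℚ ⊗[ℤ] Additive Nˣ) where
  toFun g := (actA g).baseChange ℚ
  map_one' := by
    have h : actA (1 : N ≃ₐ[ℚ] N) = LinearMap.id := by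
      apply LinearMap.ext
      intro y
      exact congrArg Additive.ofMul (show um (1 : N ≃ₐ[ℚ] N) y.toMul = y.toMul from Units.ext rfl)
    rw [h, LinearMap.baseChange_id]
    rfl
  map_mul' g h := by
    have h1 : actA (g * h) = actA g ∘ₗ actA h := by
      apply LinearMap.ext
      intro y
      exact congrArg Additive.ofMul
        (show um (g * h) y.toMul = um g (um h y.toMul) from Units.ext rfl)
    rw [h1, LinearMap.baseChange_comp]
    rfl

/-- `1 ⊗ y` -/
noncomputable def tt (y : Nˣ) : AM (repW N) := toAM (repW N) ((1 : ℚ) ⊗ₜ[ℤ] Additive.ofMul y)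

theorem tt_mul (y z : Nˣ) : tt (y * z) = tt y + tt z := by
  unfold tt
  rw [ofMul_mul, TensorProduct.tmul_add, map_add]

theorem tt_one : tt (1 : Nˣ) = 0 := by
  have h := tt_mul (1 : Nˣ) 1
  rw [mul_one] at h
  exact left_eq_add.mp h

/-- The homomorphism `tt`. -/
noncomputable def ttH : Additive Nˣ →+ AM (repW N) where
  toFun y := tt y.toMul
  map_zero' := tt_one
  map_add' _ _ := tt_mul _ _

theorem tt_zpow (y : Nˣ) (n : ℤ) : tt (y ^ n) = n • tt y :=
  map_zsmul (ttH (N := N)) n (Additive.ofMul y)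

theorem tt_pow (y : Nˣ) (n : ℕ) : tt (y ^ n) = n • tt y :=
  map_nsmul (ttH (N := N)) n (Additive.ofMul y)

theorem el_tt (g : N ≃ₐ[ℚ] N) (y : Nˣ) : el g • tt y = tt (um g y) := by
  unfold tt
  rw [el_smul_AM]
  congr 1

theorem tt_eq_zero {y : Nˣ} (h : tt y = 0) : IsOfFinOrder y := by
  have h1 : IsLocalizedModule (nonZeroDivisors ℤ) (TensorProduct.mk ℤ ℚ (Additive Nˣ) 1) :=
    (isLocalizedModule_iff_isBaseChange (nonZeroDivisors ℤ) ℚ _).mpr
      (TensorProduct.isBaseChange ℤ (Additive Nˣ) ℚ)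
  have h2 : TensorProduct.mk ℤ ℚ (Additive Nˣ) 1 (Additive.ofMul y) = 0 := h
  rw [IsLocalizedModule.eq_zero_iff (nonZeroDivisors ℤ)] at h2
  obtain ⟨n, hn⟩ := h2
  rw [isOfFinOrder_iff_zpow_eq_one]
  refine ⟨(n : ℤ), nonZeroDivisors.ne_zero n.2, ?_⟩
  exact congrArg Additive.toMul hn

end W

section θ

variable {K N : Type} [Field K] [NumberField K] [Field N] [NumberField N] [IsGalois ℚ N]

/-- The homomorphism of an element, as a vector space map. -/
noncomputable def thL (x : Kˣ) : CM K N →ₗ[ℚ] AM (repW N) where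
  toFun f := ∑ σ : K →ₐ[ℚ] N, (toAM (charRep K N)).symm f σ • tt (Units.map (σ : K →* N) x)
  map_add' f g := by
    rw [← Finset.sum_add_distrib]
    refine Finset.sum_congr rfl fun σ _ => ?_
    rw [map_add, Pi.add_apply, add_smul]
  map_smul' r f := by
    rw [RingHom.id_apply, Finset.smul_sum]
    refine Finset.sum_congr rfl fun σ _ => ?_
    rw [map_smul, Pi.smul_apply, smul_assoc]

theorem thL_apply (x : Kˣ) (f : (K →ₐ[ℚ] N) → ℚ) :
    thL x (toAM (charRep K N) f) = ∑ σ : K →ₐ[ℚ] N, f σ • tt (Units.map (σ : K →* N) x) := rfl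

/-- composition with an automorphism -/
def postE (g : N ≃ₐ[ℚ] N) : (K →ₐ[ℚ] N) ≃ (K →ₐ[ℚ] N) where
  toFun σ := (g : N →ₐ[ℚ] N).comp σ
  invFun σ := ((g⁻¹ : N ≃ₐ[ℚ] N) : N →ₐ[ℚ] N).comp σ
  left_inv σ := by
    ext x
    show g⁻¹ (g (σ x)) = σ x
    rw [← AlgEquiv.mul_apply, inv_mul_cancel, AlgEquiv.one_apply]
  right_inv σ := by
    ext x
    show g (g⁻¹ (σ x)) = σ x
    rw [← AlgEquiv.mul_apply, mul_inv_cancel, AlgEquiv.one_apply]

theorem thL_comm (x : Kˣ) (g : N ≃ₐ[ℚ] N) (f : CM K N) : thL x (el g • f) = el g • thL x f := by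
  obtain ⟨f, rfl⟩ := (toAM (charRep K N)).surjective f
  rw [el_smul_AM, thL_apply, thL_apply, Finset.smul_sum,
    ← Equiv.sum_comp (postE g)]
  refine Finset.sum_congr rfl fun σ _ => ?_
  have h1 : charRep K N g f (postE g σ) = f σ := by
    rw [charRep_apply]
    congr 1
    exact (postE g).left_inv σ
  have h2 : tt (Units.map ((postE g σ : K →ₐ[ℚ] N) : K →* N) x) =
      el g • tt (Units.map (σ : K →* N) x) := by
    rw [el_tt]
    rfl
  rw [h1, h2]
  exact (smul_comm _ _ _)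

/-- The homomorphism of an element of `Kˣ`. -/
noncomputable def th (x : Kˣ) : CM K N →ₗ[MonoidAlgebra ℚ (N ≃ₐ[ℚ] N)] AM (repW N) :=
  ofComm (thL x) (thL_comm x)

theorem th_apply (x : Kˣ) (f : (K →ₐ[ℚ] N) → ℚ) :
    th x (toAM (charRep K N) f) = ∑ σ : K →ₐ[ℚ] N, f σ • tt (Units.map (σ : K →* N) x) := rfl

theorem th_mul (x y : Kˣ) : (th (x * y) : CM K N →ₗ[MonoidAlgebra ℚ (N ≃ₐ[ℚ] N)] AM (repW N)) =
    th x + th y := by
  apply LinearMap.ext
  intro f
  obtain ⟨f, rfl⟩ := (toAM (charRep K N)).surjective f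
  rw [LinearMap.add_apply, th_apply, th_apply, th_apply, ← Finset.sum_add_distrib]
  refine Finset.sum_congr rfl fun σ _ => ?_
  rw [map_mul, tt_mul, smul_add]

/-- `th` as a homomorphism. -/
noncomputable def thH : Additive Kˣ →+ (CM K N →ₗ[MonoidAlgebra ℚ (N ≃ₐ[ℚ] N)] AM (repW N)) where
  toFun x := th x.toMul
  map_zero' := by
    have h := th_mul (K := K) (N := N) 1 1
    rw [mul_one] at h
    exact left_eq_add.mp h
  map_add' _ _ := th_mul _ _

theorem th_zpow (x : Kˣ) (n : ℤ) :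
    (th (x ^ n) : CM K N →ₗ[MonoidAlgebra ℚ (N ≃ₐ[ℚ] N)] AM (repW N)) = n • th x :=
  map_zsmul (thH (K := K) (N := N)) n (Additive.ofMul x)

theorem th_single (x : Kˣ) (σ : K →ₐ[ℚ] N) [DecidableEq (K →ₐ[ℚ] N)] :
    th x (toAM (charRep K N) (Pi.single σ 1)) = tt (Units.map (σ : K →* N) x) := by
  rw [th_apply, Finset.sum_eq_single σ]
  · rw [Pi.single_eq_same, one_smul]
  · intro b _ hb
    rw [Pi.single_eq_of_ne hb, zero_smul]
  · intro h
    exact absurd (Finset.mem_univ _) h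

theorem th_eq_zero (ι : K →ₐ[ℚ] N) {x : Kˣ}
    (h : (th x : CM K N →ₗ[MonoidAlgebra ℚ (N ≃ₐ[ℚ] N)] AM (repW N)) = 0) :
    IsOfFinOrder x := by
  classical
  have h1 := th_single (N := N) x ι
  rw [h] at h1
  have h2 : IsOfFinOrder (Units.map (ι : K →* N) x) := tt_eq_zero h1.symm
  rw [isOfFinOrder_iff_pow_eq_one] at h2 ⊢
  obtain ⟨n, hn, h3⟩ := h2
  refine ⟨n, hn, ?_⟩
  apply Units.map_injective (f := (ι : K →* N)) ι.toRingHom.injective
  rw [map_pow, h3, map_one]

/-- The value at an integral vector. -/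
theorem th_int (x : Kˣ) (χ : (K →ₐ[ℚ] N) → ℤ) :
    th x (toAM (charRep K N) (fun σ => (χ σ : ℚ))) = tt (charVal K N χ x) := by
  rw [th_apply]
  have h1 : tt (charVal K N χ x) =
      ∑ σ : K →ₐ[ℚ] N, tt ((Units.map (σ : K →* N) x) ^ (χ σ)) := by
    have h2 := map_sum (ttH (N := N))
      (fun σ : K →ₐ[ℚ] N => Additive.ofMul ((Units.map (σ : K →* N) x) ^ (χ σ))) Finset.univ
    rw [← ofMul_prod] at h2
    exact h2
  rw [h1]
  refine Finset.sum_congr rfl fun σ _ => ?_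
  rw [tt_zpow]
  exact (Int.cast_smul_eq_zsmul ℚ _ _)

end θ

end Pool.Agent.H447.Gen
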