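import Mathlib
import Pool.Agent.H447.Gen.Tens

set_option autoImplicit false
set_option linter.unusedSectionVars false

/-!
# The rank condition gives semistability
-/

namespace Pool.Agent.H447.Gen

open Module MonoidAlgebra Pool.Agent.H447.Clo TensorProduct

section dual

variable {K N : Type} [Field K] [NumberField K] [Field N] [NumberField N] [IsGalois ℚ N]

/-- the inner product -/
noncomputable def ip (f g : CM K N) : ℚ :=
  ∑ σ : K →ₐ[ℚ] N, (toAM (charRep K N)).symm f σ * (toAM (charRep K N)).symm g σ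

theorem ip_el (g : N ≃ₐ[ℚ] N) (x y : CM K N) : ip (el g • x) (el g • y) = ip x y := by
  obtain ⟨x, rfl⟩ := (toAM (charRep K N)).surjective x
  obtain ⟨y, rfl⟩ := (toAM (charRep K N)).surjective y
  rw [el_smul_AM, el_smul_AM]
  show ∑ σ : K →ₐ[ℚ] N, charRep K N g x σ * charRep K N g y σ = ∑ σ : K →ₐ[ℚ] N, x σ * y σ
  rw [← Equiv.sum_comp (postE g)]
  refine Finset.sum_congr rfl fun σ _ => ?_
  have h1 : ∀ f : (K →ₐ[ℚ] N) → ℚ, charRep K N g f (postE g σ) = f σ := by
    intro f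
    rw [charRep_apply]
    congr 1
    exact (postE g).left_inv σ
  rw [h1, h1]

theorem ip_add (f g h : CM K N) : ip f (g + h) = ip f g + ip f h := by
  unfold ip
  rw [← Finset.sum_add_distrib]
  refine Finset.sum_congr rfl fun σ _ => ?_
  rw [map_add, Pi.add_apply, mul_add]

theorem ip_smul (r : ℚ) (f g : CM K N) : ip f (r • g) = r * ip f g := by
  unfold ip
  rw [Finset.mul_sum]
  refine Finset.sum_congr rfl fun σ _ => ?_
  rw [map_smul, Pi.smul_apply, smul_eq_mul]
  ring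

theorem ip_zero (f : CM K N) : ip f 0 = 0 := by
  have := ip_smul 0 f 0
  rwa [zero_smul, zero_mul] at this

theorem ip_self {f : CM K N} (h : ip f f = 0) : f = 0 := by
  apply (toAM (charRep K N)).symm.injective
  rw [map_zero]
  have h2 : ∀ σ ∈ Finset.univ, (toAM (charRep K N)).symm f σ * (toAM (charRep K N)).symm f σ = 0 :=
    (Finset.sum_eq_zero_iff_of_nonneg (fun σ _ => mul_self_nonneg _)).mp h
  funext σ
  exact mul_self_eq_zero.mp (h2 σ (Finset.mem_univ _))

/-- A submodule from a stable subspace. -/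
def ofStable {G Z : Type} [Group G] [AddCommGroup Z] [Module ℚ Z]
    [Module (MonoidAlgebra ℚ G) Z] [IsScalarTower ℚ (MonoidAlgebra ℚ G) Z] (U : Submodule ℚ Z)
    (h : ∀ (g : G), ∀ z ∈ U, el g • z ∈ U) : Submodule (MonoidAlgebra ℚ G) Z where
  carrier := U
  add_mem' := U.add_mem
  zero_mem' := U.zero_mem
  smul_mem' := by
    intro a z hz
    induction a using MonoidAlgebra.induction_on with
    | of g => exact h g z hz
    | add a b ha hb =>
      rw [add_smul]
      exact U.add_mem ha hb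
    | smul r a ha =>
      rw [smul_assoc]
      exact U.smul_mem r ha

/-- The orthogonal complement. -/
noncomputable def orth (Y : Submodule (MonoidAlgebra ℚ (N ≃ₐ[ℚ] N)) (CM K N)) :
    Submodule (MonoidAlgebra ℚ (N ≃ₐ[ℚ] N)) (CM K N) :=
  ofStable
    { carrier := {f | ∀ y ∈ Y, ip y f = 0}
      add_mem' := fun {a b} ha hb y hy => by rw [ip_add, ha y hy, hb y hy, add_zero]
      zero_mem' := fun y _ => ip_zero y
      smul_mem' := fun r a ha y hy => by rw [ip_smul, ha y hy, mul_zero] } (by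
    intro g z hz y hy
    have h1 : y = el g • (el g⁻¹ • y) := by
      rw [smul_smul, ← el_mul, mul_inv_cancel, el_one, one_smul]
    rw [h1, ip_el]
    exact hz _ (Y.smul_mem _ hy))

theorem mem_orth {Y : Submodule (MonoidAlgebra ℚ (N ≃ₐ[ℚ] N)) (CM K N)} {f : CM K N} :
    f ∈ orth Y ↔ ∀ y ∈ Y, ip y f = 0 := Iff.rfl

theorem disjoint_orth (Y : Submodule (MonoidAlgebra ℚ (N ≃ₐ[ℚ] N)) (CM K N)) :
    Disjoint Y (orth Y) := by
  rw [Submodule.disjoint_def]
  intro f hf hf'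
  exact ip_self (hf' f hf)

/-- The integral vectors of a submodule. -/
noncomputable def intPts (Y : Submodule (MonoidAlgebra ℚ (N ≃ₐ[ℚ] N)) (CM K N)) :
    AddSubgroup ((K →ₐ[ℚ] N) → ℤ) where
  carrier := {χ | toAM (charRep K N) (fun σ => (χ σ : ℚ)) ∈ Y}
  add_mem' := by
    intro a b ha hb
    have h : toAM (charRep K N) (fun σ => ((a + b) σ : ℚ)) =
        toAM (charRep K N) (fun σ => (a σ : ℚ)) + toAM (charRep K N) (fun σ => (b σ : ℚ)) := by
      rw [← map_add]
      congr 1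
      funext σ
      simp
    show toAM (charRep K N) (fun σ => ((a + b) σ : ℚ)) ∈ Y
    rw [h]
    exact Y.add_mem ha hb
  zero_mem' := by
    have h : toAM (charRep K N) (fun σ => ((0 : (K →ₐ[ℚ] N) → ℤ) σ : ℚ)) = 0 := by
      rw [← map_zero (toAM (charRep K N))]
      congr 1
    show toAM (charRep K N) (fun σ => ((0 : (K →ₐ[ℚ] N) → ℤ) σ : ℚ)) ∈ Y
    rw [h]
    exact Y.zero_mem
  neg_mem' := by
    intro a ha
    have h : toAM (charRep K N) (fun σ => ((-a) σ : ℚ)) =
        -toAM (charRep K N) (fun σ => (a σ : ℚ)) := by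
      rw [← map_neg]
      congr 1
    show toAM (charRep K N) (fun σ => ((-a) σ : ℚ)) ∈ Y
    rw [h]
    exact Y.neg_mem ha

theorem mem_intPts {Y : Submodule (MonoidAlgebra ℚ (N ≃ₐ[ℚ] N)) (CM K N)}
    {χ : (K →ₐ[ℚ] N) → ℤ} :
    χ ∈ intPts Y ↔ toAM (charRep K N) (fun σ => (χ σ : ℚ)) ∈ Y := Iff.rfl

theorem charRep_inv (g : N ≃ₐ[ℚ] N) (f : (K →ₐ[ℚ] N) → ℚ) (σ : K →ₐ[ℚ] N) :
    charRep K N g⁻¹ f σ = f ((g : N →ₐ[ℚ] N).comp σ) := by
  rw [charRep_apply, inv_inv]

theorem galStable_intPts (Y : Submodule (MonoidAlgebra ℚ (N ≃ₐ[ℚ] N)) (CM K N)) :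
    GalStable (intPts Y) := by
  intro g χ hχ
  rw [mem_intPts] at hχ ⊢
  have h := Y.smul_mem (el g⁻¹) hχ
  rw [el_smul_AM] at h
  have h1 : charRep K N g⁻¹ (fun σ => (χ σ : ℚ)) =
      fun σ => ((χ ((g : N →ₐ[ℚ] N).comp σ) : ℤ) : ℚ) := by
    funext σ
    exact charRep_inv g _ σ
  rwa [h1] at h

/-- clearing denominators -/
theorem exists_int_multiple {α : Type} [Fintype α] (f : α → ℚ) :
    ∃ d : ℤ, d ≠ 0 ∧ ∃ χ : α → ℤ, (fun a => (χ a : ℚ)) = (d : ℚ) • f := by
  refine ⟨∏ a, ((f a).den : ℤ), ?_, ?_⟩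
  · exact Finset.prod_ne_zero_iff.mpr fun a _ => by exact_mod_cast (f a).den_nz
  · classical
    refine ⟨fun a => (∏ b ∈ Finset.univ.erase a, ((f b).den : ℤ)) * (f a).num, ?_⟩
    funext a
    rw [Pi.smul_apply, smul_eq_mul, ← Finset.mul_prod_erase _ _ (Finset.mem_univ a)]
    push_cast
    have h1 : ((f a).den : ℚ) * f a = (f a).num := Rat.den_mul_eq_num (f a)
    rw [← h1]
    ring

/-- The dimension of the cocharacters and the weights. -/
theorem cochar_add_wt (c : N ≃ₐ[ℚ] N)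
    (Y : Submodule (MonoidAlgebra ℚ (N ≃ₐ[ℚ] N)) (CM K N)) :
    finrank ℚ (cochar' c (intPts Y)) + wt (idem c) Y ≤
      wt (idem c) (⊤ : Submodule (MonoidAlgebra ℚ (N ≃ₐ[ℚ] N)) (CM K N)) := by
  have h1 : finrank ℚ (cochar' c (intPts Y)) ≤ wt (idem c) (orth Y) := by
    let g : cochar' c (intPts Y) →ₗ[ℚ] ePart (idem c) (orth Y) :=
      { toFun := fun f => ⟨toAM (charRep K N) f.1, by
          refine ⟨?_, ?_⟩
          · rw [mem_orth]
            intro y hy
            obtain ⟨y, rfl⟩ := (toAM (charRep K N)).surjective y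
            obtain ⟨d, hd, χ, hχ⟩ := exists_int_multiple y
            have h2 : χ ∈ intPts Y := by
              rw [mem_intPts, hχ, map_smul]
              have h3 := Y.smul_mem (algebraMap ℚ (MonoidAlgebra ℚ (N ≃ₐ[ℚ] N)) (d : ℚ)) hy
              rwa [algebraMap_smul] at h3
            have h3 := f.2.2 χ h2
            have h4 : ∑ σ, (χ σ : ℚ) * f.1 σ =
                d * ip (toAM (charRep K N) y) (toAM (charRep K N) f.1) := by
              show _ = (d : ℚ) * ∑ σ : K →ₐ[ℚ] N, y σ * f.1 σ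
              rw [Finset.mul_sum]
              refine Finset.sum_congr rfl fun σ _ => ?_
              have h5 := congrFun hχ σ
              have h6 : (χ σ : ℚ) = d * y σ := h5
              rw [h6]
              ring
            rw [h4] at h3
            exact (mul_eq_zero.mp h3).resolve_left (by exact_mod_cast hd)
          · rw [idem_fixed, el_smul_AM]
            congr 1
            funext σ
            rw [charRep_apply]
            have h2 := f.2.1 (((c⁻¹ : N ≃ₐ[ℚ] N) : N →ₐ[ℚ] N).comp σ)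
            have h3 : (c : N →ₐ[ℚ] N).comp (((c⁻¹ : N ≃ₐ[ℚ] N) : N →ₐ[ℚ] N).comp σ) = σ :=
              (postE c).right_inv σ
            rw [h3] at h2
            exact h2.symm⟩
        map_add' := fun a b => rfl
        map_smul' := fun r a => rfl }
    refine LinearMap.finrank_le_finrank_of_injective (f := g) ?_
    intro a b hab
    have h6 := congrArg Subtype.val hab
    apply Subtype.ext
    exact h6
  have h2 := wt_sup (idem c) (disjoint_orth Y)
  have h3 := wt_mono (idem c) (le_top : Y ⊔ orth Y ≤ ⊤)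
  omega

end dual

section main

variable {K N : Type} [Field K] [NumberField K] [Field N] [NumberField N] [IsGalois ℚ N]

/-- The submodule generated by the conjugates. -/
noncomputable def MM (N : Type) [Field N] [NumberField N] [IsGalois ℚ N] (S : Finset Kˣ) :
    Submodule (MonoidAlgebra ℚ (N ≃ₐ[ℚ] N)) (AM (repW N)) :=
  Submodule.span _ (Set.range fun a : S × (K →ₐ[ℚ] N) => tt (Units.map (a.2 : K →* N) a.1.1))

instance (S : Finset Kˣ) : FiniteDimensional ℚ (MM N S) := by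
  have h1 : Module.Finite (MonoidAlgebra ℚ (N ≃ₐ[ℚ] N)) (MM N S) :=
    Module.Finite.span_of_finite _ (Set.finite_range _)
  have h2 : Module.Finite ℚ (MonoidAlgebra ℚ (N ≃ₐ[ℚ] N)) := inferInstance
  exact Module.Finite.trans (MonoidAlgebra ℚ (N ≃ₐ[ℚ] N)) (MM N S)

theorem tt_mem_MM {L : Subgroup Kˣ} {S : Finset Kˣ} (hS : Subgroup.closure (S : Set Kˣ) = L)
    {x : Kˣ} (hx : x ∈ L) (σ : K →ₐ[ℚ] N) : tt (Units.map (σ : K →* N) x) ∈ MM N S := by
  rw [← hS] at hx
  induction hx using Subgroup.closure_induction with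
  | mem x hx => exact Submodule.subset_span ⟨(⟨x, hx⟩, σ), rfl⟩
  | one =>
    rw [map_one, tt_one]
    exact Submodule.zero_mem _
  | mul x y _ _ hx hy =>
    rw [map_mul, tt_mul]
    exact Submodule.add_mem _ hx hy
  | inv x _ hx =>
    have h := tt_zpow (Units.map (σ : K →* N) x) (-1)
    rw [zpow_neg_one, neg_one_zsmul, ← map_inv] at h
    rw [h]
    exact Submodule.neg_mem _ hx

end main

section charval

variable {K N : Type} [Field K] [NumberField K] [Field N] [NumberField N] [IsGalois ℚ N]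

/-- The value as a homomorphism. -/
noncomputable def cvH (x : Kˣ) : ((K →ₐ[ℚ] N) → ℤ) →+ Additive Nˣ where
  toFun χ := Additive.ofMul (charVal K N χ x)
  map_zero' := by
    unfold charVal
    simp
  map_add' χ χ' := by
    rw [← ofMul_mul]
    congr 1
    unfold charVal
    rw [← Finset.prod_mul_distrib]
    refine Finset.prod_congr rfl fun σ _ => ?_
    rw [Pi.add_apply, zpow_add]

theorem charVal_pow (χ : (K →ₐ[ℚ] N) → ℤ) (x : Kˣ) (n : ℕ) :
    charVal K N χ (x ^ n) = (charVal K N χ x) ^ n := by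
  unfold charVal
  rw [← Finset.prod_pow]
  refine Finset.prod_congr rfl fun σ _ => ?_
  rw [map_pow, ← zpow_natCast, ← zpow_natCast, ← zpow_mul, ← zpow_mul, mul_comm]

/-- Some power of `x` is in `B(ℚ)`. -/
theorem exists_pow_mem (Ψ : AddSubgroup ((K →ₐ[ℚ] N) → ℤ)) {x : Kˣ}
    (h : ∀ χ ∈ Ψ, IsOfFinOrder (charVal K N χ x)) : ∃ n : ℕ, n ≠ 0 ∧ x ^ n ∈ ratPts Ψ := by
  classical
  have h1 : (AddSubgroup.toIntSubmodule Ψ).FG := IsNoetherian.noetherian _
  obtain ⟨T, hT⟩ := h1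
  have hTΨ : ∀ χ ∈ T, χ ∈ Ψ := by
    intro χ hχ
    have : χ ∈ AddSubgroup.toIntSubmodule Ψ := by
      rw [← hT]
      exact Submodule.subset_span hχ
    exact this
  refine ⟨∏ χ ∈ T, orderOf (charVal K N χ x), ?_, ?_⟩
  · rw [Finset.prod_ne_zero_iff]
    intro χ hχ
    exact (orderOf_pos_iff.mpr (h χ (hTΨ χ hχ))).ne'
  · set n := ∏ χ ∈ T, orderOf (charVal K N χ x) with hn
    -- the characters whose value at `x ^ n` is one
    have h2 : AddSubgroup.toIntSubmodule Ψ ≤
        LinearMap.ker (cvH (N := N) (x ^ n)).toIntLinearMap := by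
      rw [← hT, Submodule.span_le]
      intro χ hχT
      show Additive.ofMul (charVal K N χ (x ^ n)) = 0
      rw [charVal_pow]
      have h3 : (charVal K N χ x) ^ n = 1 :=
        orderOf_dvd_iff_pow_eq_one.mp (Finset.dvd_prod_of_mem _ hχT)
      rw [h3]
      rfl
    rw [mem_ratPts]
    intro χ hχ
    exact h2 (show χ ∈ AddSubgroup.toIntSubmodule Ψ from hχ)

end charval

section space

variable {K N : Type} [Field K] [NumberField K] [Field N] [NumberField N] [IsGalois ℚ N]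
  {M : Type} [AddCommGroup M] [Module ℚ M] [Module (MonoidAlgebra ℚ (N ≃ₐ[ℚ] N)) M]
  [IsScalarTower ℚ (MonoidAlgebra ℚ (N ≃ₐ[ℚ] N)) M] [FiniteDimensional ℚ M]

/-- The space of homomorphisms belonging to `L`. -/
noncomputable def LL (L : Subgroup Kˣ) (j : M →ₗ[MonoidAlgebra ℚ (N ≃ₐ[ℚ] N)] AM (repW N)) :
    Submodule ℚ (CM K N →ₗ[MonoidAlgebra ℚ (N ≃ₐ[ℚ] N)] M) where
  carrier := {η | ∃ n : ℤ, n ≠ 0 ∧ ∃ x ∈ L, ∀ f, n • j (η f) = th x f}
  add_mem' := by
    rintro a b ⟨n, hn, x, hx, h⟩ ⟨m, hm, y, hy, h'⟩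
    refine ⟨n * m, mul_ne_zero hn hm, x ^ m * y ^ n,
      L.mul_mem (L.zpow_mem hx m) (L.zpow_mem hy n), fun f => ?_⟩
    rw [th_mul, th_zpow, th_zpow]
    show (n * m) • j (a f + b f) = m • th x f + n • th y f
    rw [← h f, ← h' f, map_add, smul_add, smul_smul, smul_smul, mul_comm m n]
  zero_mem' := by
    refine ⟨1, one_ne_zero, 1, L.one_mem, fun f => ?_⟩
    have h : (th (1 : Kˣ) : CM K N →ₗ[MonoidAlgebra ℚ (N ≃ₐ[ℚ] N)] AM (repW N)) = 0 :=
      map_zero (thH (K := K) (N := N))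
    rw [h]
    show (1 : ℤ) • j 0 = 0
    rw [map_zero, smul_zero]
  smul_mem' := by
    rintro r a ⟨n, hn, x, hx, h⟩
    refine ⟨n * r.den, mul_ne_zero hn (by exact_mod_cast r.den_nz), x ^ r.num,
      L.zpow_mem hx _, fun f => ?_⟩
    rw [th_zpow]
    show (n * (r.den : ℤ)) • j (r • a f) = r.num • th x f
    have h1 : j (r • a f) = r • j (a f) := j.map_smul_of_tower r (a f)
    rw [← h f, h1, ← Int.cast_smul_eq_zsmul ℚ (n * (r.den : ℤ)), smul_smul,
      ← Int.cast_smul_eq_zsmul ℚ r.num, ← Int.cast_smul_eq_zsmul ℚ n, smul_smul]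
    congr 1
    push_cast
    rw [mul_assoc, Rat.den_mul_eq_num, mul_comm]

variable {j : M →ₗ[MonoidAlgebra ℚ (N ≃ₐ[ℚ] N)] AM (repW N)} (hj : Function.Injective j)
  {L : Subgroup Kˣ}

theorem exists_of_mem_LL {η : CM K N →ₗ[MonoidAlgebra ℚ (N ≃ₐ[ℚ] N)] M} (h : η ∈ LL L j) :
    ∃ n : ℤ, n ≠ 0 ∧ ∃ x ∈ L, ∀ f, n • j (η f) = th x f := h

theorem exists_of_mem_van {η : CM K N →ₗ[MonoidAlgebra ℚ (N ≃ₐ[ℚ] N)] M} (h : η ∈ LL L j)
    (Y : Submodule (MonoidAlgebra ℚ (N ≃ₐ[ℚ] N)) (CM K N)) (hY : η ∈ van Y) :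
    ∃ n : ℤ, n ≠ 0 ∧ ∃ x ∈ L ⊓ ratPts (intPts Y), ∀ f, n • j (η f) = th x f := by
  obtain ⟨n, hn, x, hx, h⟩ := exists_of_mem_LL h
  have hval : ∀ χ ∈ intPts Y, IsOfFinOrder (charVal K N χ x) := by
    intro χ hχ
    apply tt_eq_zero
    rw [← th_int, ← h, hY _ hχ, map_zero, smul_zero]
  obtain ⟨m, hm, hxm⟩ := exists_pow_mem (intPts Y) hval
  refine ⟨(m : ℤ) * n, mul_ne_zero (by exact_mod_cast hm) hn, x ^ m, ⟨L.pow_mem hx m, hxm⟩,
    fun f => ?_⟩
  have h1 := th_zpow (N := N) x (m : ℤ)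
  rw [zpow_natCast] at h1
  rw [h1, mul_smul, h f]
  rfl

/-- homomorphism from a subgroup -/
noncomputable def subH (B : Subgroup Kˣ) :
    Additive B →+ (CM K N →ₗ[MonoidAlgebra ℚ (N ≃ₐ[ℚ] N)] AM (repW N)) :=
  (thH (K := K) (N := N)).comp (MonoidHom.toAdditive B.subtype)

theorem subH_apply (B : Subgroup Kˣ) (x : B) :
    subH (N := N) B (Additive.ofMul x) = th x.1 := rfl

theorem finite_sub (hfg : L.FG) (B : Subgroup Kˣ) : Module.Finite ℤ (Additive ↥(L ⊓ B)) := by
  have h1 : Group.FG L := (Group.fg_iff_subgroup_fg L).mpr hfg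
  have h2 : Module.Finite ℤ (Additive L) :=
    Module.Finite.iff_addGroup_fg.mpr inferInstance
  let j : Additive ↥(L ⊓ B) →+ Additive L :=
    MonoidHom.toAdditive (Subgroup.inclusion inf_le_left)
  refine Module.Finite.of_injective j.toIntLinearMap ?_
  intro a b hab
  exact Subgroup.inclusion_injective inf_le_left hab

include hj in
/-- The rank of `L ∩ B`. -/
theorem finrank_LL_le (hfg : L.FG) (Y : Submodule (MonoidAlgebra ℚ (N ≃ₐ[ℚ] N)) (CM K N)) :
    finrank ℚ ↥(LL L j ⊓ van Y) ≤ rkG ↥(L ⊓ ratPts (intPts Y)) := by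
  classical
  let b := finBasis ℚ ↥(LL L j ⊓ van Y)
  have hb : ∀ i, ∃ (n : ℤ), n ≠ 0 ∧ ∃ x ∈ L ⊓ ratPts (intPts Y),
      ∀ f, n • j ((b i).1 f) = th x f := fun i =>
    exists_of_mem_van (b i).2.1 Y (b i).2.2
  choose n hn x hx hnx using hb
  have hfin := finite_sub hfg (ratPts (intPts Y))
  have hli : LinearIndependent ℤ (fun i => (Additive.ofMul (⟨x i, hx i⟩ :
      ↥(L ⊓ ratPts (intPts Y))) : Additive ↥(L ⊓ ratPts (intPts Y)))) := by
    rw [Fintype.linearIndependent_iff]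
    intro a ha i
    -- apply `th`
    have h1 : ∑ k, a k • (th (x k) : CM K N →ₗ[MonoidAlgebra ℚ (N ≃ₐ[ℚ] N)] AM (repW N)) = 0 := by
      have h1 := congrArg (subH (N := N) _) ha
      rw [map_sum, map_zero] at h1
      rw [← h1]
      refine Finset.sum_congr rfl fun k _ => ?_
      rw [map_zsmul, subH_apply]
    have h2 : ∑ k, ((a k : ℚ) * (n k : ℚ)) • b k = 0 := by
      apply Subtype.ext
      rw [Submodule.coe_sum]
      apply LinearMap.ext
      intro f
      apply hj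
      have h3 := LinearMap.congr_fun h1 f
      rw [LinearMap.sum_apply] at h3 ⊢
      rw [map_sum]
      have h4 : j ((0 : CM K N →ₗ[MonoidAlgebra ℚ (N ≃ₐ[ℚ] N)] M) f) =
          (0 : CM K N →ₗ[MonoidAlgebra ℚ (N ≃ₐ[ℚ] N)] AM (repW N)) f := map_zero j
      refine Eq.trans (Eq.trans (Finset.sum_congr rfl fun k _ => ?_) h3) h4.symm
      show j (((a k : ℚ) * (n k : ℚ)) • (b k).1 f) = a k • th (x k) f
      rw [← hnx k f, j.map_smul_of_tower, mul_smul, Int.cast_smul_eq_zsmul,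
        Int.cast_smul_eq_zsmul]
    have h3 := Fintype.linearIndependent_iff.mp b.linearIndependent _ h2 i
    have h4 : (n i : ℚ) ≠ 0 := by exact_mod_cast hn i
    have h5 := (mul_eq_zero.mp h3).resolve_right h4
    exact_mod_cast h5
  have h := hli.fintype_card_le_finrank
  rw [Fintype.card_fin] at h
  exact h

include hj in
/-- Semistability. -/
theorem semi_of_rank {c : N ≃ₐ[ℚ] N} (hfg : L.FG) (hL : RankCondition K N c L)
    (Y : Submodule (MonoidAlgebra ℚ (N ≃ₐ[ℚ] N)) (CM K N)) :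
    finrank ℚ ↥(LL L j ⊓ van Y) + wt (idem c) Y ≤
      wt (idem c) (⊤ : Submodule (MonoidAlgebra ℚ (N ≃ₐ[ℚ] N)) (CM K N)) := by
  have h1 := finrank_LL_le hj hfg Y
  have h2 := (hL (intPts Y) (galStable_intPts Y)).trans (finrank_cochar c (intPts Y)).le
  exact (Nat.add_le_add_right (h1.trans h2) _).trans (cochar_add_wt c Y)

end space

end Pool.Agent.H447.Gen
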