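import Mathlib
import Pool.Agent.H447.Gen.Semi

set_option autoImplicit false
set_option linter.unusedSectionVars false

/-!
# The rank condition gives structural nonsingularity
-/

namespace Pool.Agent.H447.Gen

open Module MonoidAlgebra Pool.Agent.H447.Clo TensorProduct

variable {K N : Type} [Field K] [NumberField K] [Field N] [NumberField N] [IsGalois ℚ N]

/-- **The sufficiency.** -/
theorem nonsing_of_nmf (ι : K →ₐ[ℚ] N) {c : N ≃ₐ[ℚ] N} (hc : c * c = 1)
    (hmf : NearlyMultiplicityFree K N c) {L : Subgroup Kˣ} (hfg : L.FG)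
    (hL : RankCondition K N c L) : Nonsing K N c L := by
  obtain ⟨S, hS⟩ := hfg
  have hfg : L.FG := ⟨S, hS⟩
  set j := (MM N S).subtype with hj
  have hjinj : Function.Injective j := Submodule.subtype_injective _
  obtain ⟨p, hp, hgen⟩ := genInj_of_semi (idem_mul c hc) (nearMF hmf) (LL L j)
    (fun Y => semi_of_rank hjinj hfg hL Y)
  obtain ⟨t, ht⟩ := exists_eval_ne p hp
  -- extend the functional
  obtain ⟨ψ, hψ⟩ := LinearMap.exists_extend (p := (MM N S).restrictScalars ℚ)
    (fn (MM N S) t)
  have hψ' : ∀ m : MM N S, ψ (m : AM (repW N)) = fn (MM N S) t m := fun m =>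
    LinearMap.congr_fun hψ m
  rw [nonsing_iff]
  refine ⟨{ toFun := fun y => ψ (idem c • ttH y), map_zero' := ?_, map_add' := ?_ }, ?_, ?_⟩
  · rw [map_zero, smul_zero, map_zero]
  · intro y z
    rw [map_add, smul_add, map_add]
  · intro y
    show ψ (idem c • tt (um c y)) = ψ (idem c • tt y)
    rw [← el_tt, smul_smul, idem_mul_el c hc]
  · intro x hx hσ
    have hσ' : ∀ σ : K →ₐ[ℚ] N, ψ (idem c • tt (Units.map (σ : K →* N) x)) = 0 := hσ
    have hmem : ∀ f, th x f ∈ MM N S := by
      intro f
      obtain ⟨f, rfl⟩ := (toAM (charRep K N)).surjective f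
      rw [th_apply]
      refine Submodule.sum_mem _ fun σ _ => ?_
      have h1 := (MM N S).smul_mem (algebraMap ℚ (MonoidAlgebra ℚ (N ≃ₐ[ℚ] N)) (f σ))
        (tt_mem_MM hS hx σ)
      rwa [algebraMap_smul] at h1
    let η : CM K N →ₗ[MonoidAlgebra ℚ (N ≃ₐ[ℚ] N)] MM N S := (th x).codRestrict (MM N S) hmem
    have hη : η ∈ LL L j := ⟨1, one_ne_zero, x, hx, fun f => by rw [one_smul]; rfl⟩
    have h1 : η = 0 := by
      refine hgen t ht η hη (fun q => ?_)
      rw [← hψ']
      show ψ (th x (idem c • q)) = 0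
      rw [map_smul]
      obtain ⟨f, rfl⟩ := (toAM (charRep K N)).surjective q
      rw [th_apply, Finset.smul_sum, map_sum]
      refine Finset.sum_eq_zero fun σ _ => ?_
      rw [smul_comm, map_smul, hσ', smul_zero]
    apply th_eq_zero ι
    apply LinearMap.ext
    intro f
    exact congrArg Subtype.val (LinearMap.congr_fun h1 f)

end Pool.Agent.H447.Gen
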