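import Mathlib
import Pool.Agent.H447.Gen.Nons
import Pool.Agent.H447.Clo.RankP

set_option autoImplicit false
set_option linter.unusedSectionVars false

/-!
# The `p`-adic part for nearly multiplicity free fields
-/

namespace Pool.Agent.H447.Clo

open Module Pool.Agent.H440R3

theorem finrank_int_le_of_ker {M V : Type} [AddCommGroup M] [AddCommGroup V] [Module ℚ V]
    [FiniteDimensional ℚ V] (f : M →+ V) (hf : ∀ x, f x = 0 → ∃ n : ℤ, n ≠ 0 ∧ n • x = 0) :
    Module.finrank ℤ M ≤ Module.finrank ℚ V := by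
  obtain ⟨s, hs, hli⟩ := exists_finset_linearIndependent_of_le_finrank (R := ℤ) (M := M) le_rfl
  have h1 : LinearIndependent ℤ (fun x : s => f (x : M)) := by
    rw [Fintype.linearIndependent_iff]
    intro a ha i
    have h2 : f (∑ i, a i • ((i : s) : M)) = 0 := by
      rw [map_sum, ← ha]
      refine Finset.sum_congr rfl fun i _ => ?_
      rw [map_zsmul]
    obtain ⟨n, hn, h3⟩ := hf _ h2
    rw [Finset.smul_sum] at h3
    simp only [smul_smul] at h3
    have h4 := Fintype.linearIndependent_iff.mp hli _ h3 i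
    exact (mul_eq_zero.mp h4).resolve_left hn
  have h2 : LinearIndependent ℚ (fun x : s => f (x : M)) :=
    (LinearIndependent.iff_fractionRing ℤ ℚ).mp h1
  have h3 := h2.fintype_card_le_finrank
  rw [Fintype.card_coe, hs] at h3
  exact h3

section

variable {K N : Type} [Field K] [NumberField K] [Field N] [NumberField N] [IsGalois ℚ N]
  (ι : K →ₐ[ℚ] N) (p : ℕ) [Fact p.Prime]

include ι in
theorem exists_lift (σ : Emb p K) : ∃ σ' : K →ₐ[ℚ] N, (Setup.τ₀ N p).comp σ' = σ := by
  obtain ⟨g, hg⟩ := exists_gal (Setup.τ₀ N p) ι σ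
  refine ⟨(g : N →ₐ[ℚ] N).comp ι, ?_⟩
  ext y
  exact (hg y).symm

/-- The embeddings of `K` in `N` and in the algebraic closure of `ℚ_p`. -/
noncomputable def embEquiv : (K →ₐ[ℚ] N) ≃ Emb p K :=
  Equiv.ofBijective (fun σ => (Setup.τ₀ N p).comp σ) ⟨fun σ σ' h => by
    ext y
    apply (Setup.τ₀ N p).toRingHom.injective
    exact congrArg (fun f : Emb p K => f y) h, fun σ => exists_lift ι p σ⟩

theorem charValue_eq (χ : Emb p K → ℤ) (x : Kˣ) :
    charValue p K χ x = Units.map (Setup.τ₀ N p : N →* AlgebraicClosure ℚ_[p])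
      (charVal K N (fun σ => χ (embEquiv ι p σ)) x) := by
  unfold charValue charVal
  rw [map_prod, ← Equiv.prod_comp (embEquiv ι p)]
  refine Finset.prod_congr rfl fun σ _ => ?_
  rw [map_zpow]
  congr 1

include ι in
/-- The condition of the `p`-adic part is satisfied by the structurally nonsingular groups. -/
theorem cond_of_nonsing {L : Subgroup Kˣ} (h : Nonsing K N 1 L) (Ψ : AddSubgroup (Emb p K → ℤ)) :
    rk ↥(L ⊓ ratPoints p K Ψ) + Module.finrank ℤ Ψ ≤ Module.finrank ℚ K := by
  obtain ⟨φ, -, hφ⟩ := nonsing_iff.mp h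
  let F : Additive ↥(L ⊓ ratPoints p K Ψ) →+ (Emb p K → ℚ) :=
    { toFun := fun x σ => φ (Additive.ofMul
        (Units.map (((embEquiv ι p).symm σ : K →ₐ[ℚ] N) : K →* N) x.toMul.1))
      map_zero' := by
        funext σ
        show φ (Additive.ofMul (Units.map _ 1)) = 0
        rw [map_one]
        exact map_zero φ
      map_add' := fun x y => by
        funext σ
        show φ (Additive.ofMul (Units.map _ (x.toMul.1 * y.toMul.1))) = _
        rw [map_mul]
        exact map_add φ _ _ }
  let W : Submodule ℚ (Emb p K → ℚ) := Submodule.span ℚ (Set.range F)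
  let F' : Additive ↥(L ⊓ ratPoints p K Ψ) →+ W :=
    { toFun := fun x => ⟨F x, Submodule.subset_span ⟨x, rfl⟩⟩
      map_zero' := Subtype.ext (map_zero F)
      map_add' := fun x y => Subtype.ext (map_add F x y) }
  have h1 : rk ↥(L ⊓ ratPoints p K Ψ) ≤ finrank ℚ W := by
    refine finrank_int_le_of_ker F' fun x hx => ?_
    have h2 : ∀ σ : K →ₐ[ℚ] N,
        φ (Additive.ofMul (Units.map (σ : K →* N) x.toMul.1)) = 0 := by
      intro σ
      have h3 := congrFun (congrArg Subtype.val hx) (embEquiv ι p σ)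
      have h4 : φ (Additive.ofMul (Units.map
        (((embEquiv ι p).symm (embEquiv ι p σ) : K →ₐ[ℚ] N) : K →* N) x.toMul.1)) = 0 := h3
      rwa [Equiv.symm_apply_apply] at h4
    have h3 := hφ _ x.toMul.2.1 h2
    rw [isOfFinOrder_iff_pow_eq_one] at h3
    obtain ⟨n, hn, h4⟩ := h3
    refine ⟨n, by exact_mod_cast hn.ne', ?_⟩
    apply Additive.toMul.injective
    apply Subtype.ext
    rw [natCast_zsmul, toMul_nsmul]
    exact h4
  have horth : ∀ u ∈ Setup.PQ p Ψ, ∀ w ∈ W, ∑ σ, u σ * w σ = 0 := by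
    intro u hu w hw
    induction hu using Submodule.span_induction with
    | mem y hy =>
      obtain ⟨χ, hχ, rfl⟩ := hy
      induction hw using Submodule.span_induction with
      | mem z hz =>
        obtain ⟨x, rfl⟩ := hz
        have h2 : charValue p K χ x.toMul.1 = 1 := x.toMul.2.2 χ hχ
        rw [charValue_eq ι p] at h2
        have h3 : Function.Injective (Units.map (Setup.τ₀ N p : N →* AlgebraicClosure ℚ_[p])) :=
          Units.map_injective (Setup.τ₀ N p).toRingHom.injective
        have h4 := h3 (h2.trans (map_one _).symm)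
        have h5 : ∑ σ : K →ₐ[ℚ] N, (χ (embEquiv ι p σ) : ℚ) *
            φ (Additive.ofMul (Units.map (σ : K →* N) x.toMul.1)) = 0 := by
          have h6 := congrArg (fun y => φ (Additive.ofMul y)) h4
          unfold charVal at h6
          simp only at h6
          rw [ofMul_prod, map_sum] at h6
          have h7 : φ (Additive.ofMul (1 : Nˣ)) = 0 := map_zero φ
          rw [h7] at h6
          rw [← h6]
          refine Finset.sum_congr rfl fun σ _ => ?_
          rw [ofMul_zpow, map_zsmul, zsmul_eq_mul]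
        rw [← h5, ← Equiv.sum_comp (embEquiv ι p)]
        refine Finset.sum_congr rfl fun σ _ => ?_
        show (χ (embEquiv ι p σ) : ℚ) * φ (Additive.ofMul (Units.map
          (((embEquiv ι p).symm (embEquiv ι p σ) : K →ₐ[ℚ] N) : K →* N) x.toMul.1)) = _
        rw [Equiv.symm_apply_apply]
      | zero => simp
      | add a b _ _ ha hb =>
        simp only [Pi.add_apply, mul_add, Finset.sum_add_distrib]
        rw [ha, hb, add_zero]
      | smul r a _ ha =>
        simp only [Pi.smul_apply, smul_eq_mul]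
        have : ∀ σ, (χ σ : ℚ) * (r * a σ) = r * ((χ σ : ℚ) * a σ) := fun σ => by ring
        simp only [this]
        rw [← Finset.mul_sum, ha, mul_zero]
    | zero => simp
    | add a b _ _ ha hb =>
      simp only [Pi.add_apply, add_mul, Finset.sum_add_distrib, ha, hb, add_zero]
    | smul r a _ ha =>
      simp only [Pi.smul_apply, smul_eq_mul, mul_assoc, ← Finset.mul_sum, ha, mul_zero]
  have hdisj : Disjoint (Setup.PQ p Ψ) W := by
    rw [Submodule.disjoint_def]
    intro u hu hw
    have h := horth u hu u hw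
    have h2 : ∀ τ ∈ Finset.univ, u τ * u τ = 0 :=
      (Finset.sum_eq_zero_iff_of_nonneg (fun τ _ => mul_self_nonneg (u τ))).mp h
    funext τ
    exact mul_self_eq_zero.mp (h2 τ (Finset.mem_univ _))
  have h3 := Submodule.finrank_add_finrank_le_of_disjoint hdisj
  rw [Module.finrank_fintype_fun_eq_card] at h3
  have h4 : Fintype.card (Emb p K) = Module.finrank ℚ K := AlgHom.card ℚ K _
  rw [h4] at h3
  have h5 := Setup.finrank_Psi_le p Ψ
  omega

/-- The dimension of the orthogonal complement. -/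
theorem le_cochar_one (Ψ : AddSubgroup ((K →ₐ[ℚ] N) → ℤ)) :
    Fintype.card (K →ₐ[ℚ] N) ≤ finrank ℚ (cochar' (1 : N ≃ₐ[ℚ] N) Ψ) + finrank ℤ Ψ := by
  have hfin : Module.Finite ℤ Ψ :=
    Module.Finite.of_injective Ψ.subtype.toIntLinearMap Subtype.val_injective
  have hfree : Module.Free ℤ Ψ := Module.free_of_finite_type_torsion_free'
  let b := Module.finBasis ℤ Ψ
  let f : ((K →ₐ[ℚ] N) → ℚ) →ₗ[ℚ] (Fin (finrank ℤ Ψ) → ℚ) :=
    { toFun := fun u i => ∑ σ, ((b i).1 σ : ℚ) * u σ
      map_add' := fun u w => by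
        funext i
        simp only [Pi.add_apply, mul_add, Finset.sum_add_distrib]
      map_smul' := fun r u => by
        funext i
        simp only [Pi.smul_apply, smul_eq_mul, RingHom.id_apply]
        rw [Finset.mul_sum]
        refine Finset.sum_congr rfl fun σ _ => ?_
        ring }
  have h1 := LinearMap.finrank_range_add_finrank_ker f
  have h2 : finrank ℚ (LinearMap.range f) ≤ finrank ℤ Ψ := by
    have := Submodule.finrank_le (LinearMap.range f)
    rwa [Module.finrank_fintype_fun_eq_card, Fintype.card_fin] at this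
  have h3 : LinearMap.ker f ≤ cochar' (1 : N ≃ₐ[ℚ] N) Ψ := by
    intro u hu
    refine ⟨fun σ => rfl, fun χ hχ => ?_⟩
    have h4 : (⟨χ, hχ⟩ : Ψ) = ∑ i, b.repr ⟨χ, hχ⟩ i • b i := (b.sum_repr _).symm
    have h5 : χ = ∑ i, b.repr ⟨χ, hχ⟩ i • (b i).1 := by
      have h6 := congrArg Subtype.val h4
      rw [AddSubgroup.val_finsetSum] at h6
      exact h6
    have h6 : ∀ σ, (χ σ : ℚ) = ∑ i, (b.repr ⟨χ, hχ⟩ i : ℚ) * ((b i).1 σ : ℚ) := by
      intro σ
      have h7 := congrFun h5 σ
      rw [Finset.sum_apply] at h7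
      rw [h7, Int.cast_sum]
      refine Finset.sum_congr rfl fun i _ => ?_
      rw [Pi.smul_apply, smul_eq_mul, Int.cast_mul]
    simp only [h6, Finset.sum_mul]
    rw [Finset.sum_comm]
    refine Finset.sum_eq_zero fun i _ => ?_
    have h8 : ∑ σ, ((b i).1 σ : ℚ) * u σ = 0 := congrFun hu i
    simp only [mul_assoc]
    rw [← Finset.mul_sum, h8, mul_zero]
  have h4 := Submodule.finrank_mono h3
  rw [Module.finrank_fintype_fun_eq_card] at h1
  omega

include ι in
theorem card_emb : Fintype.card (K →ₐ[ℚ] N) = finrank ℚ K := by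
  have h1 := Fintype.card_congr (embEquiv ι 2)
  rw [h1]
  exact AlgHom.card ℚ K _

include ι in
/-- The condition of the `p`-adic part implies the rank condition. -/
theorem rankCondition_of_cond {L : Subgroup Kˣ} (hfg : L.FG)
    (h : ∀ Ψ : AddSubgroup (Emb p K → ℤ),
      rk ↥(L ⊓ ratPoints p K Ψ) + Module.finrank ℤ Ψ ≤ Module.finrank ℚ K) :
    RankCondition K N 1 L := by
  intro Ψ _
  let E : (Emb p K → ℤ) ≃+ ((K →ₐ[ℚ] N) → ℤ) :=
    { toFun := fun χ σ => χ (embEquiv ι p σ)
      invFun := fun χ σ => χ ((embEquiv ι p).symm σ)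
      left_inv := fun χ => by
        funext σ
        show χ (embEquiv ι p ((embEquiv ι p).symm σ)) = χ σ
        rw [Equiv.apply_symm_apply]
      right_inv := fun χ => by
        funext σ
        show χ ((embEquiv ι p).symm (embEquiv ι p σ)) = χ σ
        rw [Equiv.symm_apply_apply]
      map_add' := fun a b => rfl }
  have h1 := h (Ψ.comap E.toAddMonoidHom)
  have h2 : finrank ℤ (Ψ.comap E.toAddMonoidHom) = finrank ℤ Ψ := by
    let e : ↥(Ψ.comap E.toAddMonoidHom) ≃+ Ψ :=
      { toFun := fun χ => ⟨E χ.1, χ.2⟩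
        invFun := fun χ => ⟨E.symm χ.1, by
          show E (E.symm χ.1) ∈ Ψ
          rw [AddEquiv.apply_symm_apply]
          exact χ.2⟩
        left_inv := fun χ => Subtype.ext (E.symm_apply_apply _)
        right_inv := fun χ => Subtype.ext (E.apply_symm_apply _)
        map_add' := fun a b => rfl }
    exact e.toIntLinearEquiv.finrank_eq
  have h3 : L ⊓ ratPts Ψ ≤ L ⊓ ratPoints p K (Ψ.comap E.toAddMonoidHom) := by
    refine le_inf inf_le_left ?_
    rintro x ⟨-, hx⟩ χ hχ
    have h4 : charVal K N (fun σ => χ (embEquiv ι p σ)) x = 1 := mem_ratPts.mp hx _ hχ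
    rw [charValue_eq ι p, h4, map_one]
  have h4 : rkG ↥(L ⊓ ratPts Ψ) ≤ rk ↥(L ⊓ ratPoints p K (Ψ.comap E.toAddMonoidHom)) := by
    have hfin := Pool.Agent.H447.Gen.finite_sub hfg (ratPoints p K (Ψ.comap E.toAddMonoidHom))
    exact LinearMap.finrank_le_finrank_of_injective
      (f := (MonoidHom.toAdditive (Subgroup.inclusion h3)).toIntLinearMap)
      (Subgroup.inclusion_injective h3)
  have h5 : finrank ℚ K ≤ finrank ℚ (cochar' (1 : N ≃ₐ[ℚ] N) Ψ) + finrank ℤ Ψ :=
    (card_emb ι).ge.trans (le_cochar_one Ψ)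
  refine le_trans ?_ (finrank_cochar (1 : N ≃ₐ[ℚ] N) Ψ).ge
  omega

/-- **The `p`-adic part for nearly multiplicity free fields.** -/
theorem padicPart_iff (ι : K →ₐ[ℚ] N) (hmf : NearlyMultiplicityFree K N 1) (p : ℕ)
    [Fact p.Prime] : PadicPart p K ↔
      ∀ L : Subgroup Kˣ, L.FG →
        (∃ C : Subgroup (QpPoints p K), IsCompact (C : Set (QpPoints p K)) ∧
          L.map (incl p K) ≤ C) →
        Nonsing K N 1 L →
        ∀ C : Subgroup (QpPoints p K), IsMaxCompact p K (closureIn p K L) C →
          CommensurableZp p K (rk L) C := by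
  constructor
  · intro h L hfg hC hL
    exact h L hfg hC (cond_of_nonsing ι p hL)
  · intro h L hfg hC hL
    exact h L hfg hC (Pool.Agent.H447.Gen.nonsing_of_nmf ι (mul_one 1) hmf hfg
      (rankCondition_of_cond ι p hfg hL))

end

end Pool.Agent.H447.Clo
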